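import Pool.Agent.Lib.MP_021685_agO4.Defs

/-!
# Tate classes on products `A ^ n × Z`: the definitions used in the statement
-/

set_option autoImplicit false

namespace Pool.Agent.Lib.MP_021685_agO5

open Module Pool.Agent.Lib.MP_021685_agO

variable {k H J : Type*} {N : J → Type*} [Field k] [AddCommGroup H] [Module k H]
  [∀ j, AddCommGroup (N j)] [∀ j, Module k (N j)]

/-- The space `N j` is small compared with the subspace `U` of `H`: one of the following holds.
* The dimension of `N j` is less than the dimension of `U`.
* The dimension of `U` is not four, and for an element `(h, Y)` of `G`, where `h` is idempotent with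
  multiplier `1`, at most one generalised eigenspace of `Y j` has a dimension `≥ dim U / 2`.
* For an element `(X, Y)` of `G` the endomorphism `Y j` is a scalar, but `X` is not a scalar on `U`. -/
def IsSmallAt (g : Submodule k (End k H)) (c : End k H → k)
    (G : Submodule k (End k H × (∀ j, End k (N j)))) (j : J) (U : Submodule k H) : Prop :=
  finrank k (N j) < finrank k U ∨
  (finrank k U ≠ 4 ∧ ∃ P ∈ G, IsHodgeElt g c P.1 ∧ ∀ a b : k,
    finrank k U ≤ 2 * finrank k ((P.2 j).maxGenEigenspace a) →
    finrank k U ≤ 2 * finrank k ((P.2 j).maxGenEigenspace b) → a = b) ∨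
  ∃ P ∈ G, (∃ a : k, P.2 j = a • (1 : End k (N j))) ∧ ∃ u ∈ U, ∀ b : k, P.1 u ≠ b • u

end Pool.Agent.Lib.MP_021685_agO5
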