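import Pool.Agent.Lib.MP_021685_agO.Defs

/-!
# Tate classes on products of powers `A ^ n × Z ^ a × ..`: the definitions used in the statement
-/

set_option autoImplicit false

namespace Pool.Agent.Lib.MP_021685_agO5

open Module Pool.Agent.Lib.MP_021685_agO

variable {k H J N' : Type*} {N : J → Type*} [Field k] [AddCommGroup H] [Module k H]
  [∀ j, AddCommGroup (N j)] [∀ j, Module k (N j)] [AddCommGroup N'] [Module k N']

/-- The pairs `(X, Y)` with `G X Y`, of an endomorphism `X` of `H` and of a family `Y` of endomorphisms `Y j`
of the spaces `N j`, are a Lie algebra, and the set of their first components is `g`. -/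
structure IsLieOver (g : Submodule k (End k H)) (G : End k H → (∀ j, End k (N j)) → Prop) : Prop where
  add : ∀ X Y X' Y', G X Y → G X' Y' → G (X + X') (fun j => Y j + Y' j)
  smul : ∀ (a : k) X Y, G X Y → G (a • X) (fun j => a • Y j)
  lie : ∀ X Y X' Y', G X Y → G X' Y' → G (X * X' - X' * X) (fun j => Y j * Y' j - Y' j * Y j)
  fst : ∀ X, X ∈ g ↔ ∃ Y, G X Y

/-- The space `N j` is small compared with the subspace `U` of `H`: one of the following holds.
* The dimension of `N j` is less than the dimension of `U`.
* The dimension of `U` is not four, and for a pair `(h, Y)` in `G`, where `h` is idempotent with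
  multiplier `1`, at most one generalised eigenspace of `Y j` has a dimension `≥ dim U / 2`.
* For a pair `(X, Y)` in `G` the endomorphism `Y j` is a scalar, but `X` is not a scalar on `U`. -/
def IsSmall (g : Submodule k (End k H)) (c : End k H → k)
    (G : End k H → (∀ j, End k (N j)) → Prop) (j : J) (U : Submodule k H) : Prop :=
  finrank k (N j) < finrank k U ∨
  (finrank k U ≠ 4 ∧ ∃ h Y, G h Y ∧ IsHodgeElt g c h ∧ ∀ a b : k,
    finrank k U ≤ 2 * finrank k ((Y j).maxGenEigenspace a) →
    finrank k U ≤ 2 * finrank k ((Y j).maxGenEigenspace b) → a = b) ∨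
  ∃ X Y, G X Y ∧ (∃ a : k, ∀ x, Y j x = a • x) ∧ ∃ u ∈ U, ∀ b : k, X u ≠ b • u

/-- The multilinear map `T` with `s` arguments in `H` and with values in `N'` is a Tate map of weight `i`:
for every pair `(X, Y)` in `G` and all `v`, the sum over `t` of the `T (.., X v_t, ..)` is
`(s + i) / 2 * c(X) * T v + θ(Y) (T v)`. (If `H = H_1(A)` and `N j = H^*(Z_j)` are given by the cohomology
of an abelian variety `A` and of smooth projective varieties `Z_j`, if `G` is given by the Lie algebra of the
Galois group, and if `N'` is the part of degree `i` of a tensor product of spaces `N j`, on which `Y` acts by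
`θ(Y)`, these are the Tate classes in the part `H^1(A) ^ (⊗ s) ⊗ N'` of the cohomology of
`A ^ s × Z`, where `Z` is the product of the corresponding varieties `Z_j`.) -/
def IsTateMap (G : End k H → (∀ j, End k (N j)) → Prop) (c : End k H → k)
    (θ : (∀ j, End k (N j)) → End k N') (i s : ℕ) (T : MultilinearMap k (fun _ : Fin s => H) N') : Prop :=
  ∀ X Y, G X Y → ∀ v : Fin s → H,
    ∑ t, T (Function.update v t (X (v t))) = (((s : k) + i) / 2 * c X) • T v + θ Y (T v)

/-- The multilinear map `T` with `s` arguments in `H` and with values in `N'` is a linear combination of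
products `β₁ ⋯ β_m Δ`, where the `β_r` are Tate forms with two arguments on `H` and `Δ` is a Tate map with
`d` arguments and with values in `N'` which is zero as soon as one of its arguments is in `H₁`; the
arguments are distributed by a bijection `p`. -/
def IsGenMap (g : Submodule k (End k H)) (c : End k H → k)
    (G : End k H → (∀ j, End k (N j)) → Prop) (θ : (∀ j, End k (N j)) → End k N')
    (H₁ : Submodule k H) (i s : ℕ) (T : MultilinearMap k (fun _ : Fin s => H) N') : Prop :=
  T ∈ Submodule.span k {T' | ∃ (m d : ℕ) (p : (Fin m × Fin 2) ⊕ Fin d ≃ Fin s)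
    (β : Fin m → MultilinearMap k (fun _ : Fin 2 => H) k)
    (Δ : MultilinearMap k (fun _ : Fin d => H) N'),
    (∀ r, IsTateForm g c 2 (β r)) ∧ IsTateMap G c θ i d Δ ∧
    (∀ v : Fin d → H, (∃ t, v t ∈ H₁) → Δ v = 0) ∧
    ∀ v : Fin s → H, T' v = (∏ r, β r (fun ε => v (p (Sum.inl (r, ε))))) •
      Δ (fun t => v (p (Sum.inr t)))}

end Pool.Agent.Lib.MP_021685_agO5
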