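import Pool.Agent.Lib.MP_021685_agO5.G1

/-!
# E1: no ideal of `L` over `sp(D.W φ)` acts nilpotently on `N`
-/

set_option autoImplicit false
set_option linter.unusedSectionVars false

namespace Pool.Agent.Lib.MP_021685_agO5

open Module Function Pool.Agent.Lib.MP_021685_agO Pool.Agent.Lib.MP_021685_agO4

variable {k H N : Type*} [Field k] [CharZero k] [AddCommGroup H] [Module k H] [FiniteDimensional k H]
  [AddCommGroup N] [Module k N] [FiniteDimensional k N]
  {g : Submodule k (End k H)} {c : End k H → k} {H₀ H₁ : Submodule k H}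

/-- PROOF. Let `n` be the ideal of `NilOn`. Take `e`, `f` from `exists_pair`, `P ∈ n` with
`P.1 = FF D φ e f` and `Q ∈ n` with `Q.1 = FF D φ e e`. `P.2` is nilpotent: every vector of `N` is killed by a power
(for instance: the submodules `LinearMap.ker (P.2 ^ m)` are increasing and their union is everything;
`N` is finite-dimensional, so take the maximum of the exponents on a finite basis). So the endomorphism
`Z ↦ P.2 * Z - Z * P.2` of `End k N` is nilpotent (`LieAlgebra.ad_nilpotent_of_nilpotent`, or by hand: its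
`2 m`-th power is a combination of the `P.2 ^ a * Z * P.2 ^ b`, `a + b = 2 m`). Define `Q₀ = Q`,
`Q_(m + 1) = P * Q_m - Q_m * P`; by induction `Q_m ∈ L`, `Q_m.1 = 2 ^ m • FF D φ e e` (`FF_bracket` with
`A = FF D φ e f`, `c A = 0` by `FF_c`, and `FF D φ e f e = β e e • f + β e f • e = e` by `FF_on`), and `Q_m.2` is the
`m`-th iterate of `Z ↦ P.2 * Z - Z * P.2` at `Q.2`. For large `m`: `Q_m.2 = 0`, so
`(2 ^ m • FF D φ e e, 0) ∈ L`, and by `hno` (`FF_mem_sFF`) `FF D φ e e = 0`: contradiction to `FF_self_ne`. -/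
theorem not_nilOn_top (D : Dec g c H₀ H₁) {φ : D.Φ} {L : Submodule k (End k H × End k N)}
    (hL : ∀ P ∈ L, ∀ Q ∈ L, P * Q - Q * P ∈ L)
    (hno : ∀ X ∈ sFF D φ, (X, (0 : End k N)) ∈ L → X = 0) : ¬ NilOn D φ L ⊤ := by
  rintro ⟨n, hnL, hid, hpr, hnil⟩
  obtain ⟨e, he, f, hf, hef, hfe, hee, hff⟩ := exists_pair D φ
  obtain ⟨P, hP, hP1⟩ := hpr e he f hf
  obtain ⟨Q, hQ, hQ1⟩ := hpr e he e he
  have hPn : IsNilpotent P.2 := by
    rw [Module.End.isNilpotent_iff_of_finite]
    exact fun b => hnil P hP b Submodule.mem_top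
  obtain ⟨T, hT⟩ : ∃ T : End k (End k N), T = LinearMap.mulLeft k P.2 - LinearMap.mulRight k P.2 := ⟨_, rfl⟩
  have hTn : IsNilpotent T := by
    rw [hT]
    exact (LinearMap.commute_mulLeft_right P.2 P.2).isNilpotent_sub
      (by rwa [LinearMap.isNilpotent_mulLeft_iff]) (by rwa [LinearMap.isNilpotent_mulRight_iff])
  have hTa : ∀ Z : End k N, T Z = P.2 * Z - Z * P.2 := by
    intro Z
    rw [hT, LinearMap.sub_apply, LinearMap.mulLeft_apply, LinearMap.mulRight_apply]
  obtain ⟨m, hm⟩ := hTn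
  have hstep : ∀ j : ℕ, ∃ Z ∈ n, Z.1 = (2 : k) ^ j • FF D φ e e ∧ Z.2 = (T ^ j) Q.2 := by
    intro j
    induction j with
    | zero => exact ⟨Q, hQ, by rw [pow_zero, one_smul, hQ1], by rw [pow_zero]; rfl⟩
    | succ j ih =>
      obtain ⟨Z, hZ, hZ1, hZ2⟩ := ih
      refine ⟨P * Z - Z * P, hid P (hnL hP) Z hZ, ?_, ?_⟩
      · have h1 : (P * Z - Z * P).1 = P.1 * Z.1 - Z.1 * P.1 := rfl
        have h2 := FF_bracket D he he (FF_mem D he hf)
        have h3 : FF D φ e f e = e := by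
          rw [FF_on D he hf he, hee, hef, zero_smul, one_smul, zero_add]
        rw [FF_c D he hf, zero_smul, sub_zero, h3] at h2
        rw [h1, hP1, hZ1, mul_smul_comm, smul_mul_assoc, ← smul_sub, h2, pow_succ, mul_smul, two_smul]
      · have h1 : (P * Z - Z * P).2 = P.2 * Z.2 - Z.2 * P.2 := rfl
        rw [h1, ← hTa, hZ2, pow_succ', Module.End.mul_apply]
  obtain ⟨Z, hZ, hZ1, hZ2⟩ := hstep m
  rw [hm, LinearMap.zero_apply] at hZ2
  have h0 : (2 : k) ^ m • FF D φ e e = 0 := by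
    refine hno _ (Submodule.smul_mem _ _ (FF_mem_sFF D he he)) ?_
    have h1 : Z = ((2 : k) ^ m • FF D φ e e, (0 : End k N)) := Prod.ext hZ1 hZ2
    rw [← h1]
    exact hnL hZ
  rcases smul_eq_zero.1 h0 with h | h
  · exact absurd h (pow_ne_zero _ two_ne_zero)
  · exact FF_self_ne D he hf hfe h

end Pool.Agent.Lib.MP_021685_agO5
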