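import Pool.Agent.Lib.MP_021685_agO5.G1

/-!
# E2: the step of the flag argument
-/

set_option autoImplicit false
set_option linter.unusedSectionVars false

namespace Pool.Agent.Lib.MP_021685_agO5

open Module Function Pool.Agent.Lib.MP_021685_agO Pool.Agent.Lib.MP_021685_agO4

variable {k H N : Type*} [Field k] [CharZero k] [AddCommGroup H] [Module k H] [FiniteDimensional k H]
  [AddCommGroup N] [Module k N]
  {g : Submodule k (End k H)} {c : End k H → k} {H₀ H₁ : Submodule k H}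

/-- PROOF. Let `n` be the ideal of `NilOn` for `B`, and let `n₂` be the submodule of the `Q ∈ n` with
`Q.2 b ∈ B` for all `b ∈ B'`. It is an ideal of `L`: for `Q' ∈ L`, `Q ∈ n₂`, `b ∈ B'`:
`Q'.2 (Q.2 b) - Q.2 (Q'.2 b) ∈ B` (`hB`, `hB'`). Its elements act nilpotently on `B'`: `Q.2 b ∈ B` is killed
by a power of `Q.2`. It remains to show that `I = n₂.map (LinearMap.fst ..)` contains all the `FF D φ x y`. By
`ideal_FF` (`I` is stable under the brackets with the `FF D φ x y`: lift `FF D φ x y` to an element of `n ≤ L`, and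
`n₂` is an ideal of `L`, up to sign) it is enough to find an element of `I` which is in `sFF D φ` and is not
zero. Let `A = P.1`. There are `x, y ∈ D.W φ` with `A * FF D φ x y - FF D φ x y * A ≠ 0`: otherwise `ideal_FF`
with `I = Submodule.span k {A}` (stable under these brackets, which are zero: an element of `I` is `b • A`)
shows that all `FF D φ x y` are multiples of `A`; for a pair `e`, `f` of `exists_pair`,
`FF D φ e e` and `FF D φ e f` are then proportional to `A`, and commute, but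
`FF D φ e f * FF D φ e e - FF D φ e e * FF D φ e f = 2 • FF D φ e e ≠ 0` (`FF_bracket`, `FF_on`, `FF_c`,
`FF_self_ne`): contradiction. Take `Q ∈ n` with `Q.1 = FF D φ x y`: the pair `P * Q - Q * P` is in `n`, it acts by
zero on `B' / B` (as `P.2 b = a • b` modulo `B`: `P.2 (Q.2 b) - Q.2 (P.2 b)` is
`a • Q.2 b - Q.2 (a • b) = 0` modulo `B`), so it is in `n₂`, and its first component
`A * FF D φ x y - FF D φ x y * A` is not zero and is in `sFF D φ` (`sFF_bracket`, `sFF_le`). -/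
theorem nilOn_step (D : Dec g c H₀ H₁) {φ : D.Φ} {L : Submodule k (End k H × End k N)}
    {B B' : Submodule k N} (hB : StabN L B) (hB' : StabN L B') (h : NilOn D φ L B)
    {P : End k H × End k N} (hP : P ∈ L) (hPs : P.1 ∈ sFF D φ) (hP0 : P.1 ≠ 0) {a : k}
    (hPa : ∀ b ∈ B', P.2 b - a • b ∈ B) : NilOn D φ L B' := by
  obtain ⟨n, hnL, hnI, hnF, hnN⟩ := h
  -- the second submodule
  let n₂ : Submodule k (End k H × End k N) :=
    { carrier := {Q | Q ∈ n ∧ ∀ b ∈ B', Q.2 b ∈ B}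
      add_mem' := fun {Q R} hQ hR => ⟨n.add_mem hQ.1 hR.1, fun b hb => by
        rw [Prod.snd_add, LinearMap.add_apply]
        exact B.add_mem (hQ.2 b hb) (hR.2 b hb)⟩
      zero_mem' := ⟨n.zero_mem, fun b _ => by
        rw [Prod.snd_zero, LinearMap.zero_apply]
        exact B.zero_mem⟩
      smul_mem' := fun t {Q} hQ => ⟨n.smul_mem t hQ.1, fun b hb => by
        rw [Prod.smul_snd, LinearMap.smul_apply]
        exact B.smul_mem t (hQ.2 b hb)⟩ }
  have hmem : ∀ Q : End k H × End k N, Q ∈ n₂ ↔ Q ∈ n ∧ ∀ b ∈ B', Q.2 b ∈ B := fun Q => Iff.rfl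
  have hI2 : ∀ R ∈ L, ∀ Q ∈ n₂, R * Q - Q * R ∈ n₂ := by
    intro R hR Q hQ
    rw [hmem] at hQ ⊢
    refine ⟨hnI R hR Q hQ.1, fun b hb => ?_⟩
    show R.2 (Q.2 b) - Q.2 (R.2 b) ∈ B
    exact B.sub_mem (hB R hR _ (hQ.2 b hb)) (hQ.2 _ (hB' R hR b hb))
  have hmap : ∀ A : End k H, A ∈ n₂.map (LinearMap.fst k (End k H) (End k N)) ↔
      ∃ Q ∈ n₂, Q.1 = A := by
    intro A
    rw [Submodule.mem_map]
    rfl
  -- there are vectors such that the bracket is not zero
  have hex : ∃ x ∈ D.W φ, ∃ y ∈ D.W φ, P.1 * FF D φ x y - FF D φ x y * P.1 ≠ 0 := by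
    by_contra hcon
    push Not at hcon
    have hall : ∀ x ∈ D.W φ, ∀ y ∈ D.W φ, FF D φ x y ∈ Submodule.span k {P.1} := by
      refine ideal_FF D (Submodule.span k {P.1}) (fun A hA _ x hx y hy => ?_)
        (Submodule.mem_span_singleton_self P.1) hPs hP0
      obtain ⟨t, rfl⟩ := Submodule.mem_span_singleton.1 hA
      have h1 : t • P.1 * FF D φ x y - FF D φ x y * t • P.1 =
          t • (P.1 * FF D φ x y - FF D φ x y * P.1) := by
        rw [smul_mul_assoc, mul_smul_comm, smul_sub]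
      rw [h1, hcon x hx y hy, smul_zero]
      exact Submodule.zero_mem _
    obtain ⟨e, he, f, hf, hef, hfe, hee, hff⟩ := exists_pair D φ
    obtain ⟨s, hs⟩ := Submodule.mem_span_singleton.1 (hall e he e he)
    obtain ⟨t, ht⟩ := Submodule.mem_span_singleton.1 (hall e he f hf)
    have h1 : FF D φ e f * FF D φ e e - FF D φ e e * FF D φ e f = 0 := by
      rw [← hs, ← ht, smul_mul_assoc, mul_smul_comm, smul_mul_assoc, mul_smul_comm,
        smul_comm s t, sub_self]
    rw [FF_bracket D he he (FF_mem D he hf), FF_c D he hf, zero_smul, sub_zero,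
      FF_on D he hf he, hee, hef, zero_smul, zero_add, one_smul, ← two_smul k] at h1
    rcases smul_eq_zero.1 h1 with h2 | h2
    · exact two_ne_zero h2
    · exact FF_self_ne D he hf hfe h2
  obtain ⟨x, hx, y, hy, hne⟩ := hex
  obtain ⟨Q, hQ, hQ1⟩ := hnF x hx y hy
  have hPQ : P * Q - Q * P ∈ n₂ := by
    rw [hmem]
    refine ⟨hnI P hP Q hQ, fun b hb => ?_⟩
    show P.2 (Q.2 b) - Q.2 (P.2 b) ∈ B
    have h1 : P.2 (Q.2 b) - Q.2 (P.2 b) =
        (P.2 (Q.2 b) - a • Q.2 b) - Q.2 (P.2 b - a • b) := by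
      rw [map_sub, map_smul]
      abel
    rw [h1]
    exact B.sub_mem (hPa _ (hB' Q (hnL hQ) b hb)) (hB Q (hnL hQ) _ (hPa b hb))
  have hfst : (P * Q - Q * P).1 = P.1 * FF D φ x y - FF D φ x y * P.1 := by
    rw [← hQ1]
    rfl
  have hfull : ∀ x ∈ D.W φ, ∀ y ∈ D.W φ,
      FF D φ x y ∈ n₂.map (LinearMap.fst k (End k H) (End k N)) := by
    refine ideal_FF D _ (fun A hA _ z hz w hw => ?_) ((hmap _).2 ⟨_, hPQ, hfst⟩)
      (sFF_bracket D (sFF_le D φ hPs) (FF_mem_sFF D hx hy)) hne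
    obtain ⟨Q', hQ', rfl⟩ := (hmap A).1 hA
    obtain ⟨R, hR, hR1⟩ := hnF z hz w hw
    refine (hmap _).2 ⟨-(R * Q' - Q' * R), n₂.neg_mem (hI2 R (hnL hR) Q' hQ'), ?_⟩
    rw [neg_sub, ← hR1]
    rfl
  refine ⟨n₂, fun Q hQ => hnL ((hmem Q).1 hQ).1, hI2, fun x hx y hy =>
    (hmap _).1 (hfull x hx y hy), fun Q hQ b hb => ?_⟩
  obtain ⟨m, hm⟩ := hnN Q ((hmem Q).1 hQ).1 _ (((hmem Q).1 hQ).2 b hb)
  refine ⟨m + 1, ?_⟩
  rw [pow_succ, Module.End.mul_apply]
  exact hm

end Pool.Agent.Lib.MP_021685_agO5
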