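import Pool.Agent.Lib.MP_021685_agO5.E1
import Pool.Agent.Lib.MP_021685_agO5.E2

/-!
# E3: an irreducible subquotient of `N`
-/

set_option autoImplicit false
set_option linter.unusedSectionVars false

namespace Pool.Agent.Lib.MP_021685_agO5

open Module Function Pool.Agent.Lib.MP_021685_agO Pool.Agent.Lib.MP_021685_agO4

variable {k H N : Type*} [Field k] [CharZero k] [AddCommGroup H] [Module k H] [FiniteDimensional k H]
  [AddCommGroup N] [Module k N] [FiniteDimensional k N]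
  {g : Submodule k (End k H)} {c : End k H → k} {H₀ H₁ : Submodule k H}

/-- PROOF. `⊥` is stable and `NilOn D φ L ⊥` holds with `n = L` (`hLs`, `hL`; `m = 0`). Among the stable `B` with
`NilOn D φ L B` choose one of maximal dimension (the dimensions are at most `finrank k N`; `Nat.findGreatest`,
or strong induction on `finrank k N - finrank k B`). `B ≠ ⊤` by `not_nilOn_top`. Among the stable `B'` with
`B < B'` (`⊤` is one) choose one of minimal dimension (`Nat.find`). If `C` is stable and `B ≤ C ≤ B'`, then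
`C = B` or `B < C`, and in the second case `finrank k B' ≤ finrank k C`, so `C = B'`
(`Submodule.eq_of_le_of_finrank_le`). If `P ∈ L`, `P.1 ∈ sFF D φ`, `P.2` is a scalar on `B' / B` and `P.1 ≠ 0`, then
`NilOn D φ L B'` by `nilOn_step`, a contradiction to the choice of `B` (`Submodule.finrank_lt_finrank_of_lt`). -/
theorem exists_flag (D : Dec g c H₀ H₁) {φ : D.Φ} {L : Submodule k (End k H × End k N)}
    (hL : ∀ P ∈ L, ∀ Q ∈ L, P * Q - Q * P ∈ L)
    (hLs : ∀ x ∈ D.W φ, ∀ y ∈ D.W φ, ∃ P ∈ L, P.1 = FF D φ x y)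
    (hno : ∀ X ∈ sFF D φ, (X, (0 : End k N)) ∈ L → X = 0) :
    ∃ B B' : Submodule k N, B < B' ∧ StabN L B ∧ StabN L B' ∧
      (∀ C : Submodule k N, B ≤ C → C ≤ B' → StabN L C → C = B ∨ C = B') ∧
      ∀ P ∈ L, P.1 ∈ sFF D φ → (∃ a : k, ∀ b ∈ B', P.2 b - a • b ∈ B) → P.1 = 0 := by
  have hbot : StabN L (⊥ : Submodule k N) := fun P _ b hb => by
    rw [Submodule.mem_bot] at hb ⊢
    rw [hb, map_zero]
  have hnbot : NilOn D φ L ⊥ := ⟨L, le_rfl, fun P hP Q hQ => hL P hP Q hQ, hLs,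
    fun P _ b hb => ⟨0, by
      rw [Submodule.mem_bot] at hb
      rw [hb, map_zero]⟩⟩
  obtain ⟨B, ⟨hB, hBn⟩, hBmax⟩ := (wellFounded_gt (α := Submodule k N)).has_min
    {B | StabN L B ∧ NilOn D φ L B} ⟨⊥, hbot, hnbot⟩
  have hBtop : B ≠ ⊤ := by
    rintro rfl
    exact not_nilOn_top D hL hno hBn
  obtain ⟨B', ⟨hBB', hB'⟩, hB'min⟩ := (wellFounded_lt (α := Submodule k N)).has_min
    {B' | B < B' ∧ StabN L B'} ⟨⊤, lt_top_iff_ne_top.2 hBtop, fun _ _ _ _ => trivial⟩
  refine ⟨B, B', hBB', hB, hB', fun C hBC hCB' hC => ?_, fun P hP hPs ⟨a, ha⟩ => ?_⟩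
  · rcases eq_or_lt_of_le hBC with h | h
    · exact Or.inl h.symm
    · right
      exact (eq_or_lt_of_le hCB').resolve_right fun h' => hB'min C ⟨h, hC⟩ h'
  · by_contra h0
    exact hBmax B' ⟨hB', nilOn_step D hB hB' hBn hP hPs h0 ha⟩ hBB'

end Pool.Agent.Lib.MP_021685_agO5
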