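import Mathlib

/-!
# E4: the action on a subquotient
-/

set_option autoImplicit false

namespace Pool.Agent.Lib.MP_021685_agO5

open Module

/-- PROOF. For `P ∈ L` let `q P` be `Submodule.mapQ (B.submoduleOf B') (B.submoduleOf B') (P.2.restrict _) _`
(the restriction of `P.2` to `B'`, then the induced map of the quotient; `B.submoduleOf B'` is
`B.comap B'.subtype`). It is linear in `P`, and the bracket relation holds on the classes of the elements of `B'`
(`Submodule.linearMap_qext` or `Submodule.Quotient.induction_on`). Build the linear map by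
`choose`/`LinearMap.mk` as convenient: additivity, homogeneity and the bracket relation follow from the formula
on classes. -/
theorem exists_quot {k A N : Type*} [Field k] [Ring A] [Algebra k A] [AddCommGroup N] [Module k N]
    (L : Submodule k (A × End k N)) (hL : ∀ P ∈ L, ∀ Q ∈ L, P * Q - Q * P ∈ L)
    {B B' : Submodule k N} (hB : ∀ P ∈ L, ∀ b ∈ B, P.2 b ∈ B) (hB' : ∀ P ∈ L, ∀ b ∈ B', P.2 b ∈ B') :
    ∃ q : L →ₗ[k] End k (↥B' ⧸ B.submoduleOf B'),
      (∀ (P : L) (b : B'), q P (Submodule.Quotient.mk b) =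
        Submodule.Quotient.mk ⟨(P : A × End k N).2 b, hB' P P.2 b b.2⟩) ∧
      ∀ P Q : L, q ⟨(P : A × End k N) * Q - Q * P, hL P P.2 Q Q.2⟩ = q P * q Q - q Q * q P := by
  let r : L → (↥B' ⧸ B.submoduleOf B') →ₗ[k] (↥B' ⧸ B.submoduleOf B') := fun P =>
    Submodule.mapQ (B.submoduleOf B') (B.submoduleOf B')
      ((P : A × End k N).2.restrict (hB' P P.2))
      (fun b hb => hB P P.2 (b : N) hb)
  have hr : ∀ (P : L) (b : B'), r P (Submodule.Quotient.mk b) =
      Submodule.Quotient.mk ⟨(P : A × End k N).2 b, hB' P P.2 b b.2⟩ := fun P b =>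
    Submodule.mapQ_apply _ _ _ b
  have hext : ∀ {f g : (↥B' ⧸ B.submoduleOf B') →ₗ[k] (↥B' ⧸ B.submoduleOf B')},
      (∀ b : B', f (Submodule.Quotient.mk b) = g (Submodule.Quotient.mk b)) → f = g := by
    intro f g h
    refine LinearMap.ext fun x => ?_
    obtain ⟨b, rfl⟩ := Submodule.Quotient.mk_surjective _ x
    exact h b
  let q : L →ₗ[k] End k (↥B' ⧸ B.submoduleOf B') :=
    { toFun := r
      map_add' := fun P Q => hext fun b => by
        rw [hr, LinearMap.add_apply, hr, hr, ← Submodule.Quotient.mk_add]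
        rfl
      map_smul' := fun a P => hext fun b => by
        rw [hr, RingHom.id_apply, LinearMap.smul_apply, hr, ← Submodule.Quotient.mk_smul]
        rfl }
  refine ⟨q, hr, fun P Q => hext fun b => ?_⟩
  show r _ _ = (r P * r Q - r Q * r P) (Submodule.Quotient.mk b)
  rw [hr, LinearMap.sub_apply, Module.End.mul_apply, Module.End.mul_apply, hr, hr, hr, hr,
    ← Submodule.Quotient.mk_sub]
  rfl

end Pool.Agent.Lib.MP_021685_agO5
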