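import Mathlib

/-!
# E5: irreducible representations and ideals
-/

set_option autoImplicit false

namespace Pool.Agent.Lib.MP_021685_agO5

open Module

section

attribute [local instance 100] LieRing.ofAssociativeRing

private theorem E5_killing {k S : Type*} [Field k] [CharZero k] [IsAlgClosed k]
    [AddCommGroup S] [Module k S] [FiniteDimensional k S] [Nontrivial S]
    (R : LieSubalgebra k (End k S))
    (hirr : ∀ C : Submodule k S, (∀ x ∈ R, ∀ u ∈ C, x u ∈ C) → C = ⊥ ∨ C = ⊤)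
    (htr : ∀ x ∈ R, LinearMap.trace k S x = 0) : LieAlgebra.IsKilling k R := by
  have h1 : LieModule.IsIrreducible k R S := by
    refine LieModule.IsIrreducible.mk fun N hN => ?_
    rcases hirr N.toSubmodule (fun x hx u hu => N.lie_mem (x := (⟨x, hx⟩ : R)) hu) with h | h
    · exact absurd ((LieSubmodule.toSubmodule_eq_bot N).1 h) hN
    · exact (LieSubmodule.toSubmodule_eq_top (N := N)).1 h
  have h2 : LieAlgebra.HasTrivialRadical k R :=
    LieAlgebra.hasTrivialRadical_of_isIrreducible_of_isFaithful k R S fun x => htr x x.2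
  infer_instance

private theorem E5_proj {k R : Type*} [Field k] [LieRing R] [LieAlgebra k R]
    [FiniteDimensional k R] [LieAlgebra.IsKilling k R] (I : LieIdeal k R) :
    ∃ π : R →ₗ[k] R, (∀ x ∈ I, π x = 0) ∧ (∀ x, x - π x ∈ I) ∧
      (∀ x y, π ⁅x, y⁆ = ⁅π x, π y⁆) ∧ ∀ x ∈ I, ∀ y, ⁅x, π y⁆ = 0 := by
  have hc := I.isCompl_killingCompl
  set J := I.killingCompl with hJ
  have hc' : IsCompl J.toSubmodule I.toSubmodule := (LieSubmodule.isCompl_toSubmodule.2 hc).symm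
  have h0 : ∀ x ∈ I, Submodule.projection _ _ hc' x = 0 := fun x hx =>
    (Submodule.projection_apply_eq_zero_iff hc').2 hx
  have h1 : ∀ x, x - Submodule.projection _ _ hc' x ∈ I := by
    intro x
    have h2 : Submodule.projection _ _ hc' (x - Submodule.projection _ _ hc' x) = 0 := by
      rw [map_sub, Submodule.projection_apply_of_mem_left hc'
        (Submodule.projection_apply_mem hc' x), sub_self]
    exact (Submodule.projection_apply_eq_zero_iff hc').1 h2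
  refine ⟨Submodule.projection _ _ hc', h0, h1, fun x y => ?_, fun x hx y => ?_⟩
  · set π := Submodule.projection _ _ hc' with hπ
    have h2 : ⁅x, y⁆ - ⁅π x, π y⁆ ∈ I := by
      have e : ⁅x, y⁆ - ⁅π x, π y⁆ = ⁅x - π x, y⁆ + ⁅π x, y - π y⁆ := by
        rw [sub_lie, lie_sub]
        abel
      rw [e]
      exact add_mem (lie_mem_left k R I _ _ (h1 x)) (lie_mem_right k R I _ _ (h1 y))
    have h3 : ⁅π x, π y⁆ ∈ J := lie_mem_right k R J _ _ (Submodule.projection_apply_mem hc' y)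
    have h4 := h0 _ h2
    rw [map_sub, Submodule.projection_apply_of_mem_left hc' h3, sub_eq_zero] at h4
    exact h4
  · have h2 : ⁅x, Submodule.projection _ _ hc' y⁆ ∈ I ⊓ J :=
      ⟨lie_mem_left k R I _ _ hx, lie_mem_right k R J _ _ (Submodule.projection_apply_mem hc' y)⟩
    rw [hc.inf_eq_bot] at h2
    exact (LieSubmodule.mem_bot _).1 h2

private theorem E5_main {k A S : Type*} [Field k] [CharZero k] [IsAlgClosed k] [Ring A]
    [Algebra k A] [FiniteDimensional k A] [AddCommGroup S] [Module k S] [FiniteDimensional k S]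
    [Nontrivial S] (L : Submodule k A) (hL : ∀ P ∈ L, ∀ Q ∈ L, P * Q - Q * P ∈ L)
    (q : L →ₗ[k] End k S)
    (hq : ∀ P Q : L, q ⟨(P : A) * Q - Q * P, hL P P.2 Q Q.2⟩ = q P * q Q - q Q * q P)
    (htr : ∀ P : L, LinearMap.trace k S (q P) = 0)
    (hirr : ∀ C : Submodule k S, (∀ P : L, ∀ u ∈ C, q P u ∈ C) → C = ⊥ ∨ C = ⊤)
    (K : Submodule k L) (hK : ∀ P Q : L, Q ∈ K →
      (⟨(P : A) * Q - Q * P, hL P P.2 Q Q.2⟩ : L) ∈ K) :
    ∃ ρ : L →ₗ[k] End k S, (∀ P ∈ K, ρ P = 0) ∧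
      (∀ P Q : L, ρ ⟨(P : A) * Q - Q * P, hL P P.2 Q Q.2⟩ = ρ P * ρ Q - ρ Q * ρ P) ∧
      (∀ P Q : L, (q P - ρ P) * ρ Q = ρ Q * (q P - ρ P)) ∧
      ∀ P : L, ρ P = 0 → ∃ Q ∈ K, q P = q Q := by
  let R : LieSubalgebra k (End k S) :=
    { LinearMap.range q with
      lie_mem' := by
        rintro _ _ ⟨P, rfl⟩ ⟨Q, rfl⟩
        exact ⟨_, hq P Q⟩ }
  have hR : ∀ x : End k S, x ∈ R ↔ ∃ P, q P = x := fun x => Iff.rfl
  let q₁ : L →ₗ[k] R :=
    { toFun := fun P => ⟨q P, P, rfl⟩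
      map_add' := fun P Q => Subtype.ext (map_add q P Q)
      map_smul' := fun a P => Subtype.ext (map_smul q a P) }
  have hq1 : ∀ P, ((q₁ P : R) : End k S) = q P := fun P => rfl
  have hbr : ∀ P Q : L, q₁ ⟨(P : A) * Q - Q * P, hL P P.2 Q Q.2⟩ = ⁅q₁ P, q₁ Q⁆ :=
    fun P Q => Subtype.ext (hq P Q)
  have hsur : ∀ x : R, ∃ P, q₁ P = x := fun x => by
    obtain ⟨P, hP⟩ := x.2
    exact ⟨P, Subtype.ext hP⟩
  have hKil : LieAlgebra.IsKilling k R := by
    refine E5_killing R (fun C hC => hirr C fun P u hu => hC _ ⟨P, rfl⟩ u hu) ?_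
    rintro _ ⟨P, rfl⟩
    exact htr P
  let I : LieIdeal k R :=
    { K.map q₁ with
      lie_mem := by
        rintro x _ ⟨Q, hQ, rfl⟩
        obtain ⟨P, rfl⟩ := hsur x
        exact ⟨_, hK P Q hQ, hbr P Q⟩ }
  have hI : ∀ x : R, x ∈ I ↔ ∃ P ∈ K, q₁ P = x := fun x => Iff.rfl
  obtain ⟨π, h1, h2, h3, h4⟩ := E5_proj I
  refine ⟨R.toSubmodule.subtype ∘ₗ π ∘ₗ q₁, fun P hP => ?_, fun P Q => ?_, fun P Q => ?_,
    fun P hP => ?_⟩
  · show ((π (q₁ P) : R) : End k S) = 0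
    rw [h1 _ ⟨P, hP, rfl⟩]
    rfl
  · show ((π (q₁ _) : R) : End k S) = (π (q₁ P) : End k S) * (π (q₁ Q) : End k S) -
      (π (q₁ Q) : End k S) * (π (q₁ P) : End k S)
    rw [hbr, h3]
    rfl
  · show (q P - (π (q₁ P) : End k S)) * (π (q₁ Q) : End k S) =
      (π (q₁ Q) : End k S) * (q P - (π (q₁ P) : End k S))
    have h5 := congrArg (fun x : R => (x : End k S)) (h4 _ (h2 (q₁ P)) (q₁ Q))
    exact sub_eq_zero.1 h5
  · have h5 : π (q₁ P) = 0 := Subtype.ext hP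
    have h6 := h2 (q₁ P)
    rw [h5, sub_zero] at h6
    obtain ⟨Q, hQ, h7⟩ := h6
    exact ⟨Q, hQ, congrArg (fun x : R => (x : End k S)) h7.symm⟩

end

/-- PROOF. Work with the Lie algebra `L` (a `LieSubalgebra k A`, bracket `P * Q - Q * P`). Put
`q₀ P = q P - (tr (q P) / dim S) • 1`, a Lie homomorphism to `End k S` (the trace of a bracket is zero, scalars
are central), and let `R = q₀(L)`, a Lie subalgebra of `End k S`. `S` is an irreducible `R`-module (an
`R`-stable subspace is stable under all the `q P`), faithful, and the elements of `R` have trace zero; so `R` has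
trivial radical (`LieAlgebra.hasTrivialRadical_of_isIrreducible_of_isFaithful` in
`Mathlib/Algebra/Lie/Semisimple/Lemmas.lean`) and its Killing form is non-degenerate
(`LieAlgebra.HasTrivialRadical.instIsKilling` in `Mathlib/Algebra/Lie/CartanCriterion.lean`). The image `K₀ = q₀(K)`
is an ideal of `R`. It has a complement `K₁` in the lattice of the ideals (`LieIdeal.killingCompl`, or
`exists_isCompl` for the semisimple Lie algebra `R`), and `[K₀, K₁] ⊆ K₀ ⊓ K₁ = 0`. Let `π : R → K₁` be the projection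
along `K₀`; it is a homomorphism of Lie algebras, because for `a = a₀ + a₁`, `b = b₀ + b₁`:
`[a, b] = [a₀, b₀] + [a₁, b₁]`. Take `ρ P = π (q₀ P)`.
* `P ∈ K`: `q₀ P ∈ K₀`, `ρ P = 0`. The bracket relation for `ρ`: clear.
* `q P - ρ P` is a scalar plus an element of `K₀`, so it commutes with `ρ Q ∈ K₁`.
* `ρ P = 0`: `q₀ P ∈ K₀`, so `q₀ P = q₀ Q` with `Q ∈ K`, and `q (P - Q)` is a scalar. -/
theorem reductive_split {k A S : Type*} [Field k] [CharZero k] [IsAlgClosed k] [Ring A] [Algebra k A]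
    [FiniteDimensional k A] [AddCommGroup S] [Module k S] [FiniteDimensional k S] [Nontrivial S]
    (L : Submodule k A) (hL : ∀ P ∈ L, ∀ Q ∈ L, P * Q - Q * P ∈ L) (q : L →ₗ[k] End k S)
    (hq : ∀ P Q : L, q ⟨(P : A) * Q - Q * P, hL P P.2 Q Q.2⟩ = q P * q Q - q Q * q P)
    (hirr : ∀ C : Submodule k S, (∀ P : L, ∀ u ∈ C, q P u ∈ C) → C = ⊥ ∨ C = ⊤)
    (K : Submodule k L) (hK : ∀ P Q : L, Q ∈ K →
      (⟨(P : A) * Q - Q * P, hL P P.2 Q Q.2⟩ : L) ∈ K) :
    ∃ ρ : L →ₗ[k] End k S, (∀ P ∈ K, ρ P = 0) ∧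
      (∀ P Q : L, ρ ⟨(P : A) * Q - Q * P, hL P P.2 Q Q.2⟩ = ρ P * ρ Q - ρ Q * ρ P) ∧
      (∀ P Q : L, (q P - ρ P) * ρ Q = ρ Q * (q P - ρ P)) ∧
      ∀ P : L, ρ P = 0 → ∃ Q ∈ K, ∃ a : k, q (P - Q) = a • (1 : End k S) := by
  have hS : (finrank k S : k) ≠ 0 := Nat.cast_ne_zero.2 finrank_pos.ne'
  let c : L →ₗ[k] k := ((finrank k S : k)⁻¹ • LinearMap.trace k S) ∘ₗ q
  let q₀ : L →ₗ[k] End k S := q - c.smulRight 1
  have hq0 : ∀ P, q₀ P = q P - c P • 1 := fun P => rfl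
  have hc : ∀ P, c P = (finrank k S : k)⁻¹ * LinearMap.trace k S (q P) := fun P => rfl
  have hbr : ∀ P Q : L, q₀ ⟨(P : A) * Q - Q * P, hL P P.2 Q Q.2⟩ =
      q₀ P * q₀ Q - q₀ Q * q₀ P := by
    intro P Q
    have h1 : c ⟨(P : A) * Q - Q * P, hL P P.2 Q Q.2⟩ = 0 := by
      rw [hc, hq, map_sub, LinearMap.trace_mul_comm, sub_self, mul_zero]
    rw [hq0, h1, hq, hq0, hq0, zero_smul, sub_zero]
    simp only [sub_mul, mul_sub, smul_mul_assoc, mul_smul_comm, one_mul, mul_one, smul_sub]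
    rw [smul_comm (c P) (c Q)]
    abel
  have htr : ∀ P, LinearMap.trace k S (q₀ P) = 0 := by
    intro P
    rw [hq0, map_sub, map_smul, LinearMap.trace_one, hc, smul_eq_mul, mul_right_comm,
      inv_mul_cancel₀ hS, one_mul, sub_self]
  have hirr0 : ∀ C : Submodule k S, (∀ P : L, ∀ u ∈ C, q₀ P u ∈ C) → C = ⊥ ∨ C = ⊤ := by
    intro C hC
    refine hirr C fun P u hu => ?_
    have h1 : q P u = q₀ P u + c P • u := by
      rw [hq0, LinearMap.sub_apply, LinearMap.smul_apply, Module.End.one_apply, sub_add_cancel]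
    rw [h1]
    exact C.add_mem (hC P u hu) (C.smul_mem _ hu)
  obtain ⟨ρ, h1, h2, h3, h4⟩ := E5_main L hL q₀ hbr htr hirr0 K hK
  refine ⟨ρ, h1, h2, fun P Q => ?_, fun P hP => ?_⟩
  · have h5 : q P - ρ P = (q₀ P - ρ P) + c P • 1 := by
      rw [hq0]
      abel
    rw [h5, add_mul, mul_add, h3, smul_mul_assoc, mul_smul_comm, one_mul, mul_one]
  · obtain ⟨Q, hQ, h5⟩ := h4 P hP
    refine ⟨Q, hQ, c (P - Q), ?_⟩
    have h6 := hq0 (P - Q)
    rw [map_sub q₀, h5, sub_self] at h6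
    exact (sub_eq_zero.1 h6.symm)

end Pool.Agent.Lib.MP_021685_agO5
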