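import Mathlib

/-!
# E6: generalised eigenspaces of a subquotient
-/

set_option autoImplicit false

namespace Pool.Agent.Lib.MP_021685_agO5

open Module

private theorem E6_pow {k M : Type*} [Field k] [AddCommGroup M] [Module k M] (P : Submodule k M) (S : End k M)
    (h : ∀ b ∈ P, S b ∈ P) (n : ℕ) (b : P) : ((((S.restrict h : End k P) ^ n) b : P) : M) = (S ^ n) (b : M) := by
  induction n generalizing b with
  | zero => rfl
  | succ n ih =>
    rw [pow_succ, pow_succ, Module.End.mul_apply, Module.End.mul_apply, ih]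
    rfl

/-- Fitting: an element of `M` with a power in `P` differs from an element of the kernel by an element of `P`. -/
private theorem E6_fit {k M : Type*} [Field k] [AddCommGroup M] [Module k M] [FiniteDimensional k M]
    (P : Submodule k M) (S : End k M) (h : ∀ b ∈ P, S b ∈ P) :
    ∃ n₀ : ℕ, ∀ n, n₀ ≤ n → ∀ b : M, (S ^ n) b ∈ P → ∃ z ∈ P, (S ^ n) (b - z) = 0 := by
  obtain ⟨n₀, hn₀⟩ := Filter.eventually_atTop.1
    ((LinearMap.eventually_isCompl_ker_pow_range_pow S).and
      (LinearMap.eventually_isCompl_ker_pow_range_pow (S.restrict h : End k P)))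
  refine ⟨n₀, fun n hn b hb => ?_⟩
  obtain ⟨h1, h2⟩ := hn₀ n hn
  have h3 : (⟨(S ^ n) b, hb⟩ : P) ∈ LinearMap.ker ((S.restrict h : End k P) ^ n) ⊔
      LinearMap.range ((S.restrict h : End k P) ^ n) := by
    rw [h2.sup_eq_top]
    exact Submodule.mem_top
  obtain ⟨x, hx, y, hy, hxy⟩ := Submodule.mem_sup.1 h3
  obtain ⟨z, hz⟩ := LinearMap.mem_range.1 hy
  refine ⟨(z : M), z.2, ?_⟩
  have h4 : (x : M) = (S ^ n) (b - z) := by
    have h5 := congrArg (fun w : P => (w : M)) hxy
    have h6 := congrArg (fun w : P => (w : M)) hz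
    simp only [Submodule.coe_add] at h5 h6
    rw [E6_pow] at h6
    rw [map_sub, h6, ← h5]
    abel
  have h7 : (S ^ n) (x : M) = 0 := by
    have h8 := congrArg (fun w : P => (w : M)) (LinearMap.mem_ker.1 hx)
    simp only [Submodule.coe_zero] at h8
    rw [E6_pow] at h8
    exact h8
  have h9 : (x : M) ∈ LinearMap.ker (S ^ n) ⊓ LinearMap.range (S ^ n) :=
    ⟨LinearMap.mem_ker.2 h7, LinearMap.mem_range.2 ⟨_, h4.symm⟩⟩
  rw [h1.inf_eq_bot, Submodule.mem_bot] at h9
  rw [← h4, h9]

/-- PROOF. Let `m` be larger than the dimensions involved, `U = (T - a • 1) ^ m`, and let `U'` be its analogue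
for `Tq`: `U' (mk b) = mk (U b)`; the generalised eigenspaces are the kernels of `U` and `U'`
(`Module.End.maxGenEigenspace_eq_genEigenspace_finrank`, `Module.End.mem_maxGenEigenspace`, ...), and
`ker U ⊓ range U = ⊥`, `ker U ⊔ range U = ⊤`, also for the restrictions of `U` to the stable subspaces `B` and `B'`
(`LinearMap.isCompl_iSup_ker_pow_iInf_range_pow` or `Module.End.isCompl_...`, or `ker U ^ 2 = ker U` by dimension). Claim:
`ker U' ⊆ mkQ (ker U ⊓ B')`, so `finrank (ker U') ≤ finrank (ker U)` (`finrank` of an image of a subspace of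
`ker U`). Proof of the claim: let `b ∈ B'` with `U b ∈ B`; write `b = b₀ + b₁`, `b₀ ∈ B'`, `U b₀ = 0`,
`b₁ ∈ U B'`. `U b = U b₁ ∈ B`; write it as `x + U y` with `x ∈ B`, `U x = 0`, `y ∈ U B` (the decomposition of `B`
applied twice). Then `x = U (b₁ - y) ∈ ker U ⊓ range U = ⊥`, so `U (b₁ - y) = 0` and `b₁ - y ∈ range U`, so
`b₁ = y ∈ B`, and `mk b = mk b₀`. (Another way: the multiplicity of `a` as a root of the characteristic
polynomial is additive.) -/
theorem finrank_gen_le {k N : Type*} [Field k] [AddCommGroup N] [Module k N] [FiniteDimensional k N]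
    {B B' : Submodule k N} (T : End k N) (hB : ∀ b ∈ B, T b ∈ B) (hB' : ∀ b ∈ B', T b ∈ B')
    (Tq : End k (↥B' ⧸ B.submoduleOf B'))
    (hq : ∀ b : B', Tq (Submodule.Quotient.mk b) = Submodule.Quotient.mk ⟨T b, hB' b b.2⟩) (a : k) :
    finrank k (Tq.maxGenEigenspace a) ≤ finrank k (T.maxGenEigenspace a) := by
  obtain ⟨S, hS⟩ : ∃ S : End k N, S = T - a • (1 : End k N) := ⟨_, rfl⟩
  have hSv : ∀ b, S b = T b - a • b := fun b => by rw [hS]; rfl
  have hSB' : ∀ b ∈ B', S b ∈ B' := fun b hb => by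
    rw [hSv]
    exact B'.sub_mem (hB' b hb) (B'.smul_mem a hb)
  have hSB2 : ∀ x ∈ B.submoduleOf B', (S.restrict hSB' : End k B') x ∈ B.submoduleOf B' := by
    intro x hx
    have hx' : (x : N) ∈ B := hx
    change (((S.restrict hSB' : End k B') x : B') : N) ∈ B
    change S (x : N) ∈ B
    rw [hSv]
    exact B.sub_mem (hB _ hx') (B.smul_mem a hx')
  obtain ⟨n₀, hn₀⟩ := E6_fit (B.submoduleOf B') (S.restrict hSB' : End k B') hSB2
  have hqS : ∀ (n : ℕ) (b : B'), ((Tq - a • (1 : End k (↥B' ⧸ B.submoduleOf B'))) ^ n) (Submodule.Quotient.mk b) =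
      Submodule.Quotient.mk (((S.restrict hSB' : End k B') ^ n) b) := by
    intro n
    induction n with
    | zero => intro b; rfl
    | succ n ih =>
      intro b
      rw [pow_succ, pow_succ, Module.End.mul_apply, Module.End.mul_apply, ← ih]
      congr 1
      rw [LinearMap.sub_apply, hq]
      change (Submodule.Quotient.mk (⟨T b, hB' b b.2⟩ : B') : ↥B' ⧸ B.submoduleOf B') -
        a • (Submodule.Quotient.mk b : ↥B' ⧸ B.submoduleOf B') = _
      rw [← Submodule.Quotient.mk_smul, ← Submodule.Quotient.mk_sub]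
      congr 1
      apply Subtype.ext
      change T (b : N) - a • (b : N) = S (b : N)
      rw [hSv]
  have hle : Tq.maxGenEigenspace a ≤ ((T.maxGenEigenspace a).submoduleOf B').map (B.submoduleOf B').mkQ := by
    intro w hw
    obtain ⟨b, rfl⟩ := Submodule.Quotient.mk_surjective _ w
    rw [Module.End.mem_maxGenEigenspace] at hw
    obtain ⟨n, hn⟩ := hw
    rw [hqS, Submodule.Quotient.mk_eq_zero] at hn
    have hst : ∀ (j : ℕ) (x : B'), x ∈ B.submoduleOf B' → ((S.restrict hSB' : End k B') ^ j) x ∈ B.submoduleOf B' := by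
      intro j
      induction j with
      | zero => intro x hx; exact hx
      | succ j ih =>
        intro x hx
        rw [pow_succ, Module.End.mul_apply]
        exact ih _ (hSB2 x hx)
    have h1 : ((S.restrict hSB' : End k B') ^ (n₀ + n)) b ∈ B.submoduleOf B' := by
      rw [pow_add, Module.End.mul_apply]
      exact hst _ _ hn
    obtain ⟨z, hz, hz0⟩ := hn₀ (n₀ + n) (Nat.le_add_right _ _) b h1
    refine Submodule.mem_map.2 ⟨b - z, ?_, ?_⟩
    · change ((b - z : B') : N) ∈ T.maxGenEigenspace a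
      rw [Module.End.mem_maxGenEigenspace]
      refine ⟨n₀ + n, ?_⟩
      rw [← hS, ← E6_pow B' S hSB', hz0]
      rfl
    · rw [Submodule.mkQ_apply, Submodule.Quotient.mk_sub, (Submodule.Quotient.mk_eq_zero _).2 hz, sub_zero]
  refine (Submodule.finrank_mono hle).trans ((Submodule.finrank_map_le _ _).trans ?_)
  rw [← Submodule.finrank_map_subtype_eq]
  refine Submodule.finrank_mono ?_
  rintro x ⟨y, hy, rfl⟩
  exact hy

end Pool.Agent.Lib.MP_021685_agO5
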