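import Pool.Agent.Lib.MP_021685_agO4.F0
import Pool.Agent.Lib.MP_021685_agO4.A2

/-!
# The symplectic Lie algebra of a subspace of the decomposition
-/

set_option autoImplicit false
set_option linter.unusedSectionVars false

namespace Pool.Agent.Lib.MP_021685_agO5

open Module Function Pool.Agent.Lib.MP_021685_agO Pool.Agent.Lib.MP_021685_agO4

variable {k H : Type*} [Field k] [CharZero k] [AddCommGroup H] [Module k H] [FiniteDimensional k H]
  {g : Submodule k (End k H)} {c : End k H → k} {H₀ H₁ : Submodule k H}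

/-- The span of the `FF D φ x y`, `x, y ∈ D.W φ`: the Lie algebra `sp(D.W φ)`, acting by zero on `H₀` and
on the other subspaces. -/
def sFF (D : Dec g c H₀ H₁) (φ : D.Φ) : Submodule k (End k H) :=
  Submodule.span k {X | ∃ x ∈ D.W φ, ∃ y ∈ D.W φ, X = FF D φ x y}

theorem FF_mem_sFF (D : Dec g c H₀ H₁) {φ : D.Φ} {x y : H} (hx : x ∈ D.W φ) (hy : y ∈ D.W φ) :
    FF D φ x y ∈ sFF D φ := Submodule.subset_span ⟨x, hx, y, hy, rfl⟩

theorem sFF_le (D : Dec g c H₀ H₁) (φ : D.Φ) : sFF D φ ≤ g := by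
  refine Submodule.span_le.2 ?_
  rintro _ ⟨x, hx, y, hy, rfl⟩
  exact FF_mem D hx hy

theorem sFF_c (D : Dec g c H₀ H₁) {φ : D.Φ} {X : End k H} (hX : X ∈ sFF D φ) : c X = 0 := by
  have hs := D.sympl φ
  have hW := (D.simple φ).1
  have hle := sFF_le D φ
  unfold sFF at hX hle
  induction hX using Submodule.span_induction with
  | mem X hX =>
    obtain ⟨x, hx, y, hy, rfl⟩ := hX
    exact FF_c D hx hy
  | zero =>
    have h1 := hs.c_smul hW 0 g.zero_mem
    rwa [zero_smul, zero_mul] at h1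
  | add X Y hX hY h h' => rw [hs.c_add hW (hle hX) (hle hY), h, h', add_zero]
  | smul a X hX h => rw [hs.c_smul hW a (hle hX), h, mul_zero]

theorem sFF_bracket (D : Dec g c H₀ H₁) {φ : D.Φ} {A X : End k H} (hA : A ∈ g)
    (hX : X ∈ sFF D φ) : A * X - X * A ∈ sFF D φ := by
  have hst := (D.simple φ).2.1
  induction hX using Submodule.span_induction with
  | mem X hX =>
    obtain ⟨x, hx, y, hy, rfl⟩ := hX
    rw [FF_bracket D hx hy hA]
    exact Submodule.sub_mem _ (Submodule.add_mem _ (FF_mem_sFF D (hst A hA x hx) hy)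
      (FF_mem_sFF D hx (hst A hA y hy))) (Submodule.smul_mem _ _ (FF_mem_sFF D hx hy))
  | zero => rw [mul_zero, zero_mul, sub_zero]; exact Submodule.zero_mem _
  | add X Y _ _ h h' =>
    have h1 : A * (X + Y) - (X + Y) * A = (A * X - X * A) + (A * Y - Y * A) := by
      rw [mul_add, add_mul]; abel
    rw [h1]
    exact Submodule.add_mem _ h h'
  | smul a X _ h =>
    have h1 : A * (a • X) - (a • X) * A = a • (A * X - X * A) := by
      rw [mul_smul_comm, smul_mul_assoc, smul_sub]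
    rw [h1]
    exact Submodule.smul_mem _ _ h

theorem sFF_stable (D : Dec g c H₀ H₁) {φ : D.Φ} {X : End k H} (hX : X ∈ sFF D φ) {u : H}
    (hu : u ∈ D.W φ) : X u ∈ D.W φ := (D.simple φ).2.1 X (sFF_le D φ hX) u hu

theorem sFF_skew (D : Dec g c H₀ H₁) {φ : D.Φ} {X : End k H} (hX : X ∈ sFF D φ) {u v : H}
    (hu : u ∈ D.W φ) (hv : v ∈ D.W φ) : D.β φ (X u) v + D.β φ u (X v) = 0 := by
  rw [(D.sympl φ).mult X (sFF_le D φ hX) u hu v hv, sFF_c D hX, zero_mul]

theorem sFF_off (D : Dec g c H₀ H₁) {φ : D.Φ} {X : End k H} (hX : X ∈ sFF D φ) :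
    (∀ φ', φ' ≠ φ → ∀ u ∈ D.W φ', X u = 0) ∧ ∀ u ∈ H₀, X u = 0 := by
  induction hX using Submodule.span_induction with
  | mem X hX =>
    obtain ⟨x, hx, y, hy, rfl⟩ := hX
    exact ⟨fun φ' h u hu => FF_off D hx hy h hu, fun u hu => FF_zero D hx hy hu⟩
  | zero => exact ⟨fun _ _ _ _ => rfl, fun _ _ => rfl⟩
  | add X Y _ _ h h' =>
    exact ⟨fun φ' hφ u hu => by rw [LinearMap.add_apply, h.1 φ' hφ u hu, h'.1 φ' hφ u hu, add_zero],
      fun u hu => by rw [LinearMap.add_apply, h.2 u hu, h'.2 u hu, add_zero]⟩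
  | smul a X _ h =>
    exact ⟨fun φ' hφ u hu => by rw [LinearMap.smul_apply, h.1 φ' hφ u hu, smul_zero],
      fun u hu => by rw [LinearMap.smul_apply, h.2 u hu, smul_zero]⟩

/-- An element of `sFF D φ` which is not zero is not zero on `D.W φ`. -/
theorem sFF_ne (D : Dec g c H₀ H₁) {φ : D.Φ} {X : End k H} (hX : X ∈ sFF D φ) (h0 : X ≠ 0) :
    ∃ u ∈ D.W φ, X u ≠ 0 := by
  by_contra hcon
  push Not at hcon
  apply h0
  ext v
  have hoff := sFF_off D hX
  rw [Dec.ext D (fun a => D.θ_comm a X (sFF_le D φ hX)) v, hoff.2 _ (D.P₀_mem v), zero_add]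
  refine Finset.sum_eq_zero fun a _ => ?_
  by_cases h : D.f a = φ
  · rw [hcon _ (h ▸ D.ψ_mem a v), map_zero]
  · rw [hoff.1 _ h _ (D.ψ_mem a v), map_zero]

/-- Simplicity: a space `I` of endomorphisms which is stable under the brackets with the `FF D φ x y` and
contains an element of `sFF D φ` which is not zero contains all the `FF D φ x y`. -/
theorem ideal_FF (D : Dec g c H₀ H₁) {φ : D.Φ} (I : Submodule k (End k H))
    (hI : ∀ A ∈ I, A ∈ sFF D φ → ∀ x ∈ D.W φ, ∀ y ∈ D.W φ, A * FF D φ x y - FF D φ x y * A ∈ I)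
    {A : End k H} (hA : A ∈ I) (hAs : A ∈ sFF D φ) (hA0 : A ≠ 0) :
    ∀ x ∈ D.W φ, ∀ y ∈ D.W φ, FF D φ x y ∈ I := by
  refine ideal_core (D.W φ) (D.β φ) (D.sympl φ).alt (D.sympl φ).nondeg (FF D φ) (FF_symm D φ) I ?_ A
    (fun u hu => sFF_stable D hAs hu) (fun u hu v hv => sFF_skew D hAs hu hv) ?_ (sFF_ne D hAs hA0)
  · intro x hx y hy hxy z hz w hw
    have h1 := hI _ hxy (FF_mem_sFF D hx hy) z hz w hw
    rw [FF_bracket D hz hw (FF_mem D hx hy), FF_c D hx hy, zero_smul, sub_zero, FF_on D hx hy hz,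
      FF_on D hx hy hw] at h1
    exact h1
  · intro x hx y hy
    have h1 := hI A hA hAs x hx y hy
    rw [FF_bracket D hx hy (sFF_le D φ hAs), sFF_c D hAs, zero_smul, sub_zero] at h1
    exact h1

/-- There is a hyperbolic pair in `D.W φ`. -/
theorem exists_pair (D : Dec g c H₀ H₁) (φ : D.Φ) :
    ∃ e ∈ D.W φ, ∃ f ∈ D.W φ, D.β φ e f = 1 ∧ D.β φ f e = -1 ∧ D.β φ e e = 0 ∧ D.β φ f f = 0 := by
  obtain ⟨u, hu, v, hv, hne⟩ := (D.sympl φ).exists_ne (D.simple φ).1
  refine ⟨u, hu, (D.β φ u v)⁻¹ • v, (D.W φ).smul_mem _ hv, ?_, ?_, (D.sympl φ).alt u hu, ?_⟩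
  · rw [map_smul, smul_eq_mul, inv_mul_cancel₀ hne]
  · rw [map_smul, LinearMap.smul_apply, smul_eq_mul, (D.sympl φ).neg hv hu, mul_neg,
      inv_mul_cancel₀ hne]
  · exact (D.sympl φ).alt _ ((D.W φ).smul_mem _ hv)

/-- `FF D φ e e` is not zero for the first vector `e` of a hyperbolic pair. -/
theorem FF_self_ne (D : Dec g c H₀ H₁) {φ : D.Φ} {e f : H} (he : e ∈ D.W φ) (hf : f ∈ D.W φ)
    (hfe : D.β φ f e = -1) : FF D φ e e ≠ 0 := by
  intro h0
  have h1 := FF_on D he he hf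
  rw [h0, hfe, LinearMap.zero_apply] at h1
  have h2 : (-1 : k) • e + (-1 : k) • e = (-2 : k) • e := by module
  rw [h2] at h1
  have h3 : e = 0 := by
    rcases smul_eq_zero.1 h1.symm with h | h
    · exact absurd h (by norm_num)
    · exact h
  rw [h3, map_zero] at hfe
  exact absurd hfe.symm (by norm_num)

end Pool.Agent.Lib.MP_021685_agO5
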