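import Pool.Agent.Lib.MP_021685_agO5.G0

/-!
# Flags of subspaces, and abstract representations of the symplectic Lie algebra
-/

set_option autoImplicit false
set_option linter.unusedSectionVars false

namespace Pool.Agent.Lib.MP_021685_agO5

open Module Function Pool.Agent.Lib.MP_021685_agO Pool.Agent.Lib.MP_021685_agO4

section

variable {k H N : Type*} [Field k] [CharZero k] [AddCommGroup H] [Module k H] [FiniteDimensional k H]
  [AddCommGroup N] [Module k N]
  {g : Submodule k (End k H)} {c : End k H → k} {H₀ H₁ : Submodule k H}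

/-- The subspace `B` of `N` is stable under the second components of the pairs in `L`. -/
def StabN (L : Submodule k (End k H × End k N)) (B : Submodule k N) : Prop :=
  ∀ P ∈ L, ∀ b ∈ B, P.2 b ∈ B

/-- There is an ideal `n` of `L` which is mapped onto `sp(D.W φ)` by the first projection and whose
elements act nilpotently on `B`. -/
def NilOn (D : Dec g c H₀ H₁) (φ : D.Φ) (L : Submodule k (End k H × End k N)) (B : Submodule k N) :
    Prop :=
  ∃ n : Submodule k (End k H × End k N), n ≤ L ∧ (∀ P ∈ L, ∀ Q ∈ n, P * Q - Q * P ∈ n) ∧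
    (∀ x ∈ D.W φ, ∀ y ∈ D.W φ, ∃ P ∈ n, P.1 = FF D φ x y) ∧
    ∀ P ∈ n, ∀ b ∈ B, ∃ m : ℕ, (P.2 ^ m) b = 0

end

variable {k V S : Type*} [Field k] [AddCommGroup V] [Module k V] [AddCommGroup S] [Module k S]

/-- A symplectic basis `e`, `f` of `V`, adapted to the idempotent `h`. -/
structure SBV (β : V →ₗ[k] V →ₗ[k] k) (h : End k V) (d : ℕ) (e f : Fin d → V) : Prop where
  he : ∀ j, h (e j) = e j
  hf : ∀ j, h (f j) = 0
  ef : ∀ j l, β (e j) (f l) = if j = l then 1 else 0
  fe : ∀ j l, β (f j) (e l) = if j = l then -1 else 0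
  ee : ∀ j l, β (e j) (e l) = 0
  ff : ∀ j l, β (f j) (f l) = 0

/-- `R x y` is the action on `S` of the element `z ↦ β(z, x) y + β(z, y) x` of the symplectic Lie
algebra of `V`, and `Y` acts on it as the idempotent `h` of multiplier `1`. -/
structure SpRep (β : V →ₗ[k] V →ₗ[k] k) (h : End k V) (R : V →ₗ[k] V →ₗ[k] End k S) (Y : End k S) :
    Prop where
  symm : ∀ x y, R x y = R y x
  bracket : ∀ x y z w, R x y * R z w - R z w * R x y =
    R (β z x • y + β z y • x) w + R z (β w x • y + β w y • x)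
  hodge : ∀ z w, Y * R z w - R z w * Y = R (h z) w + R z (h w) - R z w

/-- There is a non-zero joint eigenvector `u` in `S`, with eigenvalue `a` for `Y` and `χ j` for
`R (e j) (f j)`. -/
def WtV (R : V →ₗ[k] V →ₗ[k] End k S) (Y : End k S) {d : ℕ} (e f : Fin d → V) (a : k)
    (χ : Fin d → ℤ) : Prop :=
  ∃ u : S, u ≠ 0 ∧ Y u = a • u ∧ ∀ j, R (e j) (f j) u = (χ j : k) • u

end Pool.Agent.Lib.MP_021685_agO5
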