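import Pool.Agent.Lib.MP_021685_agO5.G1
import Pool.Agent.Lib.MP_021685_agO4.A1

/-!
# W2: sign changes of the weights
-/

set_option autoImplicit false
set_option linter.unusedSectionVars false

namespace Pool.Agent.Lib.MP_021685_agO5

open Module Function Pool.Agent.Lib.MP_021685_agO4

variable {k V S : Type*} [Field k] [CharZero k] [AddCommGroup V] [Module k V] [AddCommGroup S]
  [Module k S] [FiniteDimensional k S]

private theorem W2_sc {M : Type*} [AddCommGroup M] [Module k M] (r : k) {A B C : End k M}
    (h : A * B - B * A = C) : A * (r • B) - (r • B) * A = r • C := by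
  rw [mul_smul_comm, smul_mul_assoc, ← smul_sub, h]

private theorem W2_sc2 {M : Type*} [AddCommGroup M] [Module k M] (r r' : k) {A B C : End k M}
    (h : A * B - B * A = C) : (r • A) * (r' • B) - (r' • B) * (r • A) = (r * r') • C := by
  rw [smul_mul_smul_comm, smul_mul_smul_comm, mul_comm r' r, ← smul_sub, h]

/-- PROOF. The same as `wt_sign` (`MP_021685_agO4/B6.lean`): `sl2_reflect` with
`x = -(1 / 2) • R (e j) (e j)`, `y = (1 / 2) • R (f j) (f j)`, `h = R (e j) (f j)`, index type
`Option (Fin d)`, `t none = Y`, `t (some l) = R (e l) (f l)`, `α none = 1`,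
`α (some l) = if l = j then 2 else 0`, `n = χ j`. The relations are `hR.bracket` and `hR.hodge`, with
`hb.ee`, `hb.ef`, `hb.fe`, `hb.ff`, `hb.he`, `hb.hf`. -/
theorem wtV_sign {β : V →ₗ[k] V →ₗ[k] k} {h : End k V} {R : V →ₗ[k] V →ₗ[k] End k S} {Y : End k S}
    (hR : SpRep β h R Y) {d : ℕ} {e f : Fin d → V} (hb : SBV β h d e f) {a : k} {χ : Fin d → ℤ}
    (j : Fin d) (hw : WtV R Y e f a χ) :
    WtV R Y e f (a - (χ j : k)) (Function.update χ j (-χ j)) := by
  classical
  obtain ⟨u, hu, hua, huχ⟩ := hw
  have smr : ∀ (b : k) (x y : V), R x (b • y) = b • R x y := fun b x y => by rw [map_smul]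
  have sml : ∀ (b : k) (x y : V), R (b • x) y = b • R x y := fun b x y => by
    rw [map_smul, LinearMap.smul_apply]
  -- the bracket of the two squares
  have hEF : R (e j) (e j) * R (f j) (f j) - R (f j) (f j) * R (e j) (e j) =
      (-4 : k) • R (e j) (f j) := by
    rw [hR.bracket]
    have h1 : β (f j) (e j) • e j + β (f j) (e j) • e j = (-2 : k) • e j := by
      rw [hb.fe, if_pos rfl]
      module
    rw [h1, sml, smr, hR.symm (f j) (e j)]
    module
  have hAe : ∀ l, β (e j) (e l) • f l + β (e j) (f l) • e l =
      (if l = j then (1 : k) else 0) • e j := by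
    intro l
    rw [hb.ee, hb.ef, zero_smul, zero_add]
    by_cases hl : l = j
    · subst hl
      rw [if_pos rfl]
    · rw [if_neg hl, if_neg (Ne.symm hl), zero_smul, zero_smul]
  have hAf : ∀ l, β (f j) (e l) • f l + β (f j) (f l) • e l =
      (if l = j then (-1 : k) else 0) • f j := by
    intro l
    rw [hb.ff, hb.fe, zero_smul, add_zero]
    by_cases hl : l = j
    · subst hl
      rw [if_pos rfl]
    · rw [if_neg hl, if_neg (Ne.symm hl), zero_smul, zero_smul]
  have htE : ∀ l, R (e l) (f l) * R (e j) (e j) - R (e j) (e j) * R (e l) (f l) =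
        (if l = j then (2 : k) else 0) • R (e j) (e j) := by
    intro l
    rw [hR.bracket, hAe l, sml, smr]
    split_ifs <;> module
  have htF : ∀ l, R (e l) (f l) * R (f j) (f j) - R (f j) (f j) * R (e l) (f l) =
        (if l = j then (-2 : k) else 0) • R (f j) (f j) := by
    intro l
    rw [hR.bracket, hAf l, sml, smr]
    split_ifs <;> module
  have hhE : Y * R (e j) (e j) - R (e j) (e j) * Y = R (e j) (e j) := by
    rw [hR.hodge, hb.he]
    module
  have hhF : Y * R (f j) (f j) - R (f j) (f j) * Y = -R (f j) (f j) := by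
    rw [hR.hodge, hb.hf, map_zero, map_zero, LinearMap.zero_apply]
    module
  generalize R (e j) (e j) = E at hEF htE hhE
  generalize R (f j) (f j) = F at hEF htF hhF
  have hj2 : R (e j) (f j) * E - E * R (e j) (f j) = (2 : k) • E := by
    rw [htE j, if_pos rfl]
  have hj3 : R (e j) (f j) * F - F * R (e j) (f j) = (-2 : k) • F := by
    rw [htF j, if_pos rfl]
  obtain ⟨u', hu', hev⟩ := sl2_reflect (x := (-(1 / 2) : k) • E) (y := ((1 / 2) : k) • F)
    (h := R (e j) (f j))
    (by
      rw [W2_sc2 _ _ hEF, smul_smul]
      have h1 : (-(1 / 2) * (1 / 2) * -4 : k) = 1 := by norm_num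
      rw [h1, one_smul])
    (by rw [W2_sc _ hj2, smul_comm])
    (by
      rw [W2_sc _ hj3]
      module)
    (fun o : Option (Fin d) => o.elim Y (fun l => R (e l) (f l)))
    (fun o => o.elim 1 (fun l => if l = j then (2 : k) else 0))
    (fun o => o.elim a (fun l => (χ l : k)))
    (by
      intro o
      cases o with
      | none =>
        simp only [Option.elim]
        rw [W2_sc _ hhE, one_smul]
      | some l =>
        simp only [Option.elim]
        rw [W2_sc _ (htE l), smul_comm])
    (by
      intro o
      cases o with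
      | none =>
        simp only [Option.elim]
        rw [W2_sc _ hhF, one_smul, smul_neg]
      | some l =>
        simp only [Option.elim]
        rw [W2_sc _ (htF l)]
        split_ifs <;> module)
    hu (χ j) (huχ j)
    (by
      intro o
      cases o with
      | none => exact hua
      | some l => exact huχ l)
  refine ⟨u', hu', ?_, ?_⟩
  · have h1 := hev none
    simp only [Option.elim] at h1
    rw [h1, mul_one]
  · intro l
    have h1 := hev (some l)
    simp only [Option.elim] at h1
    rw [h1]
    congr 1
    by_cases hl : l = j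
    · subst hl
      rw [if_pos rfl, Function.update_self]
      push_cast
      ring
    · rw [if_neg hl, Function.update_of_ne hl, mul_zero, sub_zero]

end Pool.Agent.Lib.MP_021685_agO5
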