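import Pool.Agent.Lib.MP_021685_agO5.G1
import Pool.Agent.Lib.MP_021685_agO4.A1

/-!
# W3: transpositions of the weights
-/

set_option autoImplicit false
set_option linter.unusedSectionVars false

namespace Pool.Agent.Lib.MP_021685_agO5

open Module Function Pool.Agent.Lib.MP_021685_agO4

variable {k V S : Type*} [Field k] [CharZero k] [AddCommGroup V] [Module k V] [AddCommGroup S]
  [Module k S] [FiniteDimensional k S]

/-- PROOF. The same as `wt_swap` (`MP_021685_agO4/B7.lean`): for `p ≠ q` `sl2_reflect` with
`x = R (e p) (f q)`, `y = R (e q) (f p)`, `h = R (e p) (f p) - R (e q) (f q)`, index type `Option (Fin d)`,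
`t none = Y`, `t (some l) = R (e l) (f l)`, `α none = 0`,
`α (some l) = (if l = p then 1 else 0) - (if l = q then 1 else 0)`, `n = χ p - χ q`. The relations are
`hR.bracket` and `hR.hodge`, with `hb.ee`, `hb.ef`, `hb.fe`, `hb.ff`, `hb.he`, `hb.hf`. -/
theorem wtV_swap {β : V →ₗ[k] V →ₗ[k] k} {h : End k V} {R : V →ₗ[k] V →ₗ[k] End k S} {Y : End k S}
    (hR : SpRep β h R Y) {d : ℕ} {e f : Fin d → V} (hb : SBV β h d e f) {a : k} {χ : Fin d → ℤ}
    (p q : Fin d) (hw : WtV R Y e f a χ) : WtV R Y e f a (χ ∘ Equiv.swap p q) := by
  classical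
  by_cases hpq : p = q
  · subst hpq
    rw [Equiv.swap_self]
    exact hw
  obtain ⟨u, hu, hua, huχ⟩ := hw
  have hAe : ∀ l j, β (e j) (e l) • f l + β (e j) (f l) • e l =
      (if l = j then (1 : k) else 0) • e j := by
    intro l j
    rw [hb.ee, hb.ef, zero_smul, zero_add]
    by_cases hl : l = j
    · subst hl
      rw [if_pos rfl]
    · rw [if_neg hl, if_neg (Ne.symm hl), zero_smul, zero_smul]
  have hAf : ∀ l j, β (f j) (e l) • f l + β (f j) (f l) • e l =
      (if l = j then (-1 : k) else 0) • f j := by
    intro l j
    rw [hb.ff, hb.fe, zero_smul, add_zero]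
    by_cases hl : l = j
    · subst hl
      rw [if_pos rfl]
    · rw [if_neg hl, if_neg (Ne.symm hl), zero_smul, zero_smul]
  have htG : ∀ l j j', R (e l) (f l) * R (e j) (f j') - R (e j) (f j') * R (e l) (f l) =
        ((if l = j then (1 : k) else 0) - (if l = j' then (1 : k) else 0)) • R (e j) (f j') := by
    intro l j j'
    rw [hR.bracket, hAe l j, hAf l j', map_smul, LinearMap.smul_apply, map_smul]
    split_ifs <;> module
  have hhG : ∀ j j', Y * R (e j) (f j') - R (e j) (f j') * Y = 0 := by
    intro j j'
    rw [hR.hodge, hb.he, hb.hf, map_zero]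
    module
  have hEF : R (e p) (f q) * R (e q) (f p) - R (e q) (f p) * R (e p) (f q) =
        R (e p) (f p) - R (e q) (f q) := by
    rw [hR.bracket]
    have h1 : β (e q) (e p) • f q + β (e q) (f q) • e p = e p := by
      rw [hb.ee, hb.ef, if_pos rfl, zero_smul, zero_add, one_smul]
    have h2 : β (f p) (e p) • f q + β (f p) (f q) • e p = (-1 : k) • f q := by
      rw [hb.fe, hb.ff, if_pos rfl, zero_smul, add_zero]
    rw [h1, h2, map_smul]
    module
  have htE := fun l => htG l p q
  have htF := fun l => htG l q p
  have hhE := hhG p q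
  have hhF := hhG q p
  generalize R (e p) (f q) = E at hEF htE hhE
  generalize R (e q) (f p) = F at hEF htF hhF
  have hpE := htE p
  have hqE := htE q
  have hpF := htF p
  have hqF := htF q
  rw [if_pos rfl, if_neg hpq, sub_zero, one_smul] at hpE
  rw [if_pos rfl, if_neg (Ne.symm hpq), zero_sub] at hqE
  rw [if_pos rfl, if_neg hpq, zero_sub] at hpF
  rw [if_pos rfl, if_neg (Ne.symm hpq), sub_zero, one_smul] at hqF
  obtain ⟨u', hu', hev⟩ := sl2_reflect (x := E) (y := F)
    (h := R (e p) (f p) - R (e q) (f q))
    hEF
    (by
      have h1 : (R (e p) (f p) - R (e q) (f q)) * E - E * (R (e p) (f p) - R (e q) (f q)) =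
          (R (e p) (f p) * E - E * R (e p) (f p)) - (R (e q) (f q) * E - E * R (e q) (f q)) := by
        rw [sub_mul, mul_sub]
        abel
      rw [h1, hpE, hqE]
      module)
    (by
      have h1 : (R (e p) (f p) - R (e q) (f q)) * F - F * (R (e p) (f p) - R (e q) (f q)) =
          (R (e p) (f p) * F - F * R (e p) (f p)) - (R (e q) (f q) * F - F * R (e q) (f q)) := by
        rw [sub_mul, mul_sub]
        abel
      rw [h1, hpF, hqF]
      module)
    (fun o : Option (Fin d) => o.elim Y (fun l => R (e l) (f l)))
    (fun o => o.elim 0 (fun l => (if l = p then (1 : k) else 0) - (if l = q then (1 : k) else 0)))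
    (fun o => o.elim a (fun l => (χ l : k)))
    (by
      intro o
      cases o with
      | none =>
        simp only [Option.elim]
        rw [hhE, zero_smul]
      | some l => exact htE l)
    (by
      intro o
      cases o with
      | none =>
        simp only [Option.elim]
        rw [hhF, zero_smul, neg_zero]
      | some l =>
        simp only [Option.elim]
        rw [htF l]
        module)
    hu (χ p - χ q)
    (by
      rw [LinearMap.sub_apply, huχ p, huχ q, ← sub_smul]
      push_cast
      rfl)
    (by
      intro o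
      cases o with
      | none => exact hua
      | some l => exact huχ l)
  refine ⟨u', hu', ?_, ?_⟩
  · have h1 := hev none
    simp only [Option.elim] at h1
    rw [h1, mul_zero, sub_zero]
  · intro l
    have h1 := hev (some l)
    simp only [Option.elim] at h1
    rw [h1]
    congr 1
    rw [Function.comp_apply]
    by_cases hlp : l = p
    · subst hlp
      rw [if_pos rfl, if_neg hpq, Equiv.swap_apply_left]
      push_cast
      ring
    · by_cases hlq : l = q
      · subst hlq
        rw [if_pos rfl, if_neg (Ne.symm hpq), Equiv.swap_apply_right]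
        push_cast
        ring
      · rw [if_neg hlp, if_neg hlq, Equiv.swap_apply_of_ne_of_ne hlp hlq]
        ring

end Pool.Agent.Lib.MP_021685_agO5
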