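import Mathlib

/-!
# W4: joint eigenvectors, and integrality of the weights
-/

set_option autoImplicit false

namespace Pool.Agent.Lib.MP_021685_agO5

open Module

/-- PROOF. Induction on the finite type `ι` in the form: for every finite set `s` of indices there is a subspace
`C' ≤ C`, `C' ≠ ⊥`, stable under all the `t i`, on which the `t i`, `i ∈ s`, act by scalars. `s = ∅`: `C' = C`.
`insert j s`: the restriction of `t j` to `C'` has an eigenvalue (`Module.End.exists_eigenvalue`, `k`
algebraically closed); the eigenspace `{u ∈ C' | t j u = a • u}` is not zero and stable under all the `t i`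
(`hc`). For `s = Finset.univ` take any `u ≠ 0` in `C'`. -/
theorem exists_joint {k S ι : Type*} [Field k] [IsAlgClosed k] [AddCommGroup S] [Module k S]
    [FiniteDimensional k S] [Finite ι] (t : ι → End k S) (hc : ∀ i j, t i * t j = t j * t i)
    (C : Submodule k S) (hC : C ≠ ⊥) (hst : ∀ i, ∀ u ∈ C, t i u ∈ C) :
    ∃ u ∈ C, u ≠ 0 ∧ ∃ τ : ι → k, ∀ i, t i u = τ i • u := by
  classical
  cases nonempty_fintype ι
  have key : ∀ s : Finset ι, ∃ C' : Submodule k S, C' ≤ C ∧ C' ≠ ⊥ ∧ (∀ i, ∀ u ∈ C', t i u ∈ C') ∧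
      ∃ τ : ι → k, ∀ i ∈ s, ∀ u ∈ C', t i u = τ i • u := by
    intro s
    induction s using Finset.induction_on with
    | empty => exact ⟨C, le_rfl, hC, hst, fun _ => 0, fun i hi => absurd hi (Finset.notMem_empty i)⟩
    | insert j s hj ih =>
      obtain ⟨C', hle, hne, hst', τ, hτ⟩ := ih
      have hnt : Nontrivial C' := Submodule.nontrivial_iff_ne_bot.2 hne
      obtain ⟨a, ha⟩ := Module.End.exists_eigenvalue ((t j).restrict (hst' j))
      obtain ⟨w, hw⟩ := ha.exists_hasEigenvector
      have hw1 : t j (w : S) = a • (w : S) := congrArg Subtype.val hw.apply_eq_smul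
      have hw2 : (w : S) ≠ 0 := fun h => hw.2 (Subtype.ext h)
      refine ⟨C' ⊓ LinearMap.ker (t j - a • 1), inf_le_left.trans hle, ?_, ?_, Function.update τ j a, ?_⟩
      · intro h
        have h1 : (w : S) ∈ C' ⊓ LinearMap.ker (t j - a • 1) := by
          refine ⟨w.2, ?_⟩
          show (t j - a • 1) (w : S) = 0
          rw [LinearMap.sub_apply, hw1, LinearMap.smul_apply, Module.End.one_apply, sub_self]
        rw [h] at h1
        exact hw2 ((Submodule.mem_bot k).1 h1)
      · rintro i u ⟨hu1, hu2⟩
        refine ⟨hst' i u hu1, ?_⟩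
        have hu3 : t j u - a • u = 0 := hu2
        have h1 : t j (t i u) = t i (t j u) := by
          rw [← Module.End.mul_apply, hc j i, Module.End.mul_apply]
        show t j (t i u) - a • t i u = 0
        rw [h1, sub_eq_zero.1 hu3, map_smul, sub_self]
      · rintro i hi u ⟨hu1, hu2⟩
        have hu3 : t j u - a • u = 0 := hu2
        by_cases hij : i = j
        · subst hij
          rw [Function.update_self]
          exact sub_eq_zero.1 hu3
        · rw [Function.update_of_ne hij]
          exact hτ i (Finset.mem_of_mem_insert_of_ne hi hij) u hu1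
  obtain ⟨C', hle, hne, -, τ, hτ⟩ := key Finset.univ
  obtain ⟨u, hu, hu0⟩ := (Submodule.ne_bot_iff _).1 hne
  exact ⟨u, hle hu, hu0, τ, fun i => hτ i (Finset.mem_univ i) u hu⟩

/-- PROOF. The vectors `x ^ m u` satisfy `h (x ^ m u) = (l + 2 m) x ^ m u`; eigenvectors with distinct
eigenvalues are linearly independent and `M` is finite-dimensional, so some `x ^ m u` is zero; let `m` be the
largest number with `u₁ = x ^ m u ≠ 0`. `u₁` is primitive of weight `l + 2 m`, and by
`IsSl2Triple.HasPrimitiveVectorWith.exists_nat` (or by hand: `x (y ^ (r + 1) u₁) = (r + 1) (N - r) y ^ r u₁`,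
`N = l + 2 m`, and the `y ^ r u₁` cannot all be non-zero) `l + 2 m` is a natural number. (See the proof of
`sl2_reflect` in `MP_021685_agO4/A1.lean`.) -/
theorem int_eig {k M : Type*} [Field k] [CharZero k] [AddCommGroup M] [Module k M]
    [FiniteDimensional k M] {x y h : End k M} (hxy : x * y - y * x = h)
    (hhx : h * x - x * h = (2 : k) • x) (hhy : h * y - y * h = -((2 : k) • y))
    {u : M} (hu : u ≠ 0) {l : k} (hl : h u = l • u) : ∃ n : ℤ, l = (n : k) := by
  by_cases h0 : h = 0
  · refine ⟨0, ?_⟩
    rw [h0, LinearMap.zero_apply] at hl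
    rcases smul_eq_zero.1 hl.symm with h1 | h1
    · rw [h1, Int.cast_zero]
    · exact absurd h1 hu
  let instL : LieRing (End k M) := LieRing.ofAssociativeRing
  have ht : IsSl2Triple h x y :=
    { h_ne_zero := h0
      lie_e_f := hxy
      lie_h_e_nsmul := hhx.trans (by rw [two_smul, two_nsmul])
      lie_h_f_nsmul := hhy.trans (by rw [two_smul, two_nsmul]) }
  have hx : ∀ w, h (x w) = x (h w) + (2 : k) • x w := by
    intro w
    have h1 := LinearMap.congr_fun hhx w
    rw [LinearMap.sub_apply, Module.End.mul_apply, Module.End.mul_apply, LinearMap.smul_apply] at h1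
    rw [← h1]
    abel
  have hm : ∀ m : ℕ, h ((x ^ m) u) = (l + 2 * (m : k)) • (x ^ m) u := by
    intro m
    induction m with
    | zero => rw [pow_zero, Module.End.one_apply, Nat.cast_zero, mul_zero, add_zero, hl]
    | succ m ih =>
      rw [pow_succ', Module.End.mul_apply, hx, ih, map_smul, ← add_smul, Nat.cast_succ]
      congr 1
      ring
  have hex : ∃ m : ℕ, (x ^ m) u = 0 := by
    by_contra hcon
    have h1 : ∀ m : ℕ, (x ^ m) u ≠ 0 := fun m hm0 => hcon ⟨m, hm0⟩
    have h2 : ∀ m : ℕ, Module.End.HasEigenvalue h (l + 2 * (m : k)) := fun m =>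
      Module.End.hasEigenvalue_of_hasEigenvector (x := (x ^ m) u) ⟨Module.End.mem_eigenspace_iff.2 (hm m), h1 m⟩
    have h3 : Function.Injective fun m : ℕ => l + 2 * (m : k) := by
      intro m n hmn
      have h4 : (2 : k) * (m : k) = 2 * (n : k) := add_left_cancel hmn
      have h5 : (m : k) = (n : k) := mul_left_cancel₀ two_ne_zero h4
      exact_mod_cast h5
    exact Set.infinite_of_injective_forall_mem h3 h2 (Module.End.finite_hasEigenvalue h)
  obtain ⟨m, hm1, hm2⟩ := Nat.exists_not_and_succ_of_not_zero_of_exists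
    (p := fun m : ℕ => (x ^ m) u = 0) (by rw [pow_zero, Module.End.one_apply]; exact hu) hex
  have h1 : x ((x ^ m) u) = 0 := by
    have h2 : (x ^ (m + 1)) u = 0 := hm2
    rw [pow_succ', Module.End.mul_apply] at h2
    exact h2
  have hP : IsSl2Triple.HasPrimitiveVectorWith ht ((x ^ m) u) (l + 2 * (m : k)) :=
    { ne_zero := hm1
      lie_h := hm m
      lie_e := h1 }
  obtain ⟨n, hn⟩ := hP.exists_nat
  refine ⟨(n : ℤ) - 2 * (m : ℤ), ?_⟩
  push_cast
  rw [← hn]
  ring

end Pool.Agent.Lib.MP_021685_agO5
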