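import Pool.Agent.Lib.MP_021685_agO5.G1
import Pool.Agent.Lib.MP_021685_agO5.W4

/-!
# W5: existence of a weight which is not zero
-/

set_option autoImplicit false
set_option linter.unusedSectionVars false

namespace Pool.Agent.Lib.MP_021685_agO5

open Module Function Pool.Agent.Lib.MP_021685_agO4

variable {k V S : Type*} [Field k] [CharZero k] [IsAlgClosed k] [AddCommGroup V] [Module k V]
  [AddCommGroup S] [Module k S] [FiniteDimensional k S]

/-- An endomorphism without eigenvalues different from zero is nilpotent. -/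
private theorem W5_nil {t : End k S} (h : ∀ l : k, l ≠ 0 → ¬ t.HasEigenvalue l) : IsNilpotent t := by
  have htop := Module.End.iSup_maxGenEigenspace_eq_top t
  have h1 : ∀ l : k, l ≠ 0 → t.maxGenEigenspace l = ⊥ := by
    intro l hl
    by_contra hne
    exact h l hl (Module.End.HasUnifEigenvalue.lt (by norm_num) hne)
  have h2 : t.maxGenEigenspace 0 = ⊤ := by
    rw [eq_top_iff, ← htop]
    refine iSup_le fun l => ?_
    by_cases hl : l = 0
    · rw [hl]
    · rw [h1 l hl]
      exact bot_le
  rw [Module.End.isNilpotent_iff_of_finite]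
  intro v
  have hv : v ∈ t.maxGenEigenspace 0 := by
    rw [h2]
    exact Submodule.mem_top
  obtain ⟨m, hm⟩ := (Module.End.mem_maxGenEigenspace t 0 v).1 hv
  rw [zero_smul, sub_zero] at hm
  exact ⟨m, hm⟩

/-- If `t X - X t = 2 X` and `t` is nilpotent then `X = 0`. -/
private theorem W5_zero {t X : End k S} (h : t * X - X * t = (2 : k) • X) (ht : IsNilpotent t) :
    X = 0 := by
  obtain ⟨m, hm⟩ := ht
  have h0 : t * X = X * (t + (2 : k) • (1 : End k S)) := by
    rw [mul_add, mul_smul_comm, mul_one, ← h]
    abel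
  have h1 : ∀ m : ℕ, t ^ m * X = X * (t + (2 : k) • (1 : End k S)) ^ m := by
    intro m
    induction m with
    | zero => simp
    | succ m ih => rw [pow_succ, mul_assoc, h0, ← mul_assoc, ih, mul_assoc, ← pow_succ]
  have h2 : IsUnit (t + (2 : k) • (1 : End k S)) := by
    have hu : IsUnit ((2 : k) • (1 : End k S)) := by
      rw [← Algebra.algebraMap_eq_smul_one]
      exact (IsUnit.mk0 (2 : k) two_ne_zero).map (algebraMap k (End k S))
    rw [add_comm]
    exact IsNilpotent.isUnit_add_left_of_commute ⟨m, hm⟩ hu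
      ((Commute.one_right t).smul_right (2 : k))
  have h3 := h1 m
  rw [hm, zero_mul] at h3
  exact (h2.pow m).mul_left_eq_zero.1 h3.symm

/-- PROOF. Let `t l = R (e l) (f l)`. First: `t j` is not nilpotent. By `hR.bracket` (with `hb.ee`, `hb.ef`)
`t j * X - X * t j = 2 • X` for `X = R (e j) (e j)`. If `t j` were nilpotent, then so would be
`Z ↦ t j * Z - Z * t j` (`LieAlgebra.ad_nilpotent_of_nilpotent`), and its `m`-th iterate maps `X` to `2 ^ m • X`;
so `X = 0`. Then `ideal_core` (`MP_021685_agO4/A2.lean`) with `W = ⊤`, `F = R`, `I = ⊥`, and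
`A = u ↦ (2 * β u (e j)) • e j` gives `R = 0`: `hI` holds, as for `R x y = 0` the element in question is
`R x y * R z w - R z w * R x y = 0`; `A` is skew (alternation); `A (f j) = -2 • e j ≠ 0` (`hb.fe`; `e j ≠ 0` by
`hb.ef`); `R (A x) y + R x (A y) = R (e j) (e j) * R x y - R x y * R (e j) (e j) = 0` by `hR.bracket` (with `alt`).
Contradiction to `hne`.
So `t j` has an eigenvalue `l₀ ≠ 0` (otherwise its only eigenvalue is zero, and it is nilpotent:
`Module.End.isNilpotent_iff...`, or `Module.End.iSup_maxGenEigenspace_eq_top`). `C = ker (t j - l₀)`. The operators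
`Y` and `t l` commute: `t l * t m - t m * t l = 0` by `hR.bracket` (`R (β (e m) (e l) • f l + β (e m) (f l) • e l) (f m)
+ R (e m) (β (f m) (e l) • f l + β (f m) (f l) • e l) = δ R (e l) (f m) - δ R (e m) (f l) = 0`), and
`Y * t l - t l * Y = R (h (e l)) (f l) + R (e l) (h (f l)) - R (e l) (f l) = 0` (`hb.he`, `hb.hf`). So `C` is
stable, and `exists_joint` (index type `Option (Fin d)`) gives a joint eigenvector `u ∈ C`. Its eigenvalues for
the `t l` are integers by `int_eig`, with the triple `-(1 / 2) • R (e l) (e l)`, `(1 / 2) • R (f l) (f l)`,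
`t l` (the relations as in `wtV_sign`); the one for `t j` is `l₀ ≠ 0`. -/
theorem exists_wtV {β : V →ₗ[k] V →ₗ[k] k} (alt : ∀ u, β u u = 0)
    (nondeg : ∀ u, (∀ v, β u v = 0) → u = 0) {h : End k V} {R : V →ₗ[k] V →ₗ[k] End k S}
    {Y : End k S} (hR : SpRep β h R Y) {d : ℕ} {e f : Fin d → V} (hb : SBV β h d e f) (j : Fin d)
    (hne : ∃ x y, R x y ≠ 0) : ∃ (a : k) (χ : Fin d → ℤ), χ ≠ 0 ∧ WtV R Y e f a χ := by
  have skew : ∀ u v, β u v + β v u = 0 := by
    intro u v
    have h1 := alt (u + v)
    simp only [map_add, LinearMap.add_apply, alt u, alt v, zero_add, add_zero] at h1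
    rw [add_comm]
    exact h1
  have hefj : β (e j) (f j) = 1 := by rw [hb.ef, if_pos rfl]
  have hfej : β (f j) (e j) = -1 := by rw [hb.fe, if_pos rfl]
  have hej0 : e j ≠ 0 := by
    intro h0
    rw [h0, map_zero, LinearMap.zero_apply] at hefj
    exact zero_ne_one hefj
  -- the relations of the triples
  have hE : ∀ l, R (e l) (f l) * R (e l) (e l) - R (e l) (e l) * R (e l) (f l) =
      (2 : k) • R (e l) (e l) := by
    intro l
    rw [hR.bracket, hb.ee, hb.ef, if_pos rfl, zero_smul, one_smul, zero_add, two_smul]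
  have hF : ∀ l, R (e l) (f l) * R (f l) (f l) - R (f l) (f l) * R (e l) (f l) =
      -((2 : k) • R (f l) (f l)) := by
    intro l
    rw [hR.bracket, hb.fe, hb.ff, if_pos rfl, zero_smul, add_zero, neg_one_smul, map_neg, map_neg,
      LinearMap.neg_apply, two_smul]
    abel
  have hEF : ∀ l, R (e l) (e l) * R (f l) (f l) - R (f l) (f l) * R (e l) (e l) =
      (-4 : k) • R (e l) (f l) := by
    intro l
    rw [hR.bracket, hb.fe, if_pos rfl, hR.symm (f l) _]
    simp only [neg_one_smul, map_add, map_neg, LinearMap.add_apply, LinearMap.neg_apply]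
    module
  have htt : ∀ l m, R (e l) (f l) * R (e m) (f m) = R (e m) (f m) * R (e l) (f l) := by
    intro l m
    rw [← sub_eq_zero, hR.bracket, hb.ee, hb.ef, hb.fe, hb.ff]
    by_cases hlm : l = m
    · subst hlm
      simp
    · rw [if_neg (Ne.symm hlm), if_neg (Ne.symm hlm)]
      simp
  have hYt : ∀ l, Y * R (e l) (f l) = R (e l) (f l) * Y := by
    intro l
    rw [← sub_eq_zero, hR.hodge, hb.he, hb.hf, map_zero, add_zero, sub_self]
  -- `t j` is not nilpotent
  have hnil : ¬ IsNilpotent (R (e j) (f j)) := by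
    intro hn
    have hX : R (e j) (e j) = 0 := W5_zero (hE j) hn
    obtain ⟨x, y, hxy⟩ := hne
    apply hxy
    have hA := ideal_core (⊤ : Submodule k V) β (fun u _ => alt u)
      (fun u _ h => nondeg u fun v => h v Submodule.mem_top) R hR.symm ⊥ ?_
      (((2 : k) • β.flip (e j)).smulRight (e j)) (fun _ _ => Submodule.mem_top) ?_ ?_ ?_ x
      Submodule.mem_top y Submodule.mem_top
    · exact (Submodule.mem_bot k).1 hA
    · intro x _ y _ h z _ w _
      rw [Submodule.mem_bot] at h ⊢
      rw [← hR.bracket, h, zero_mul, mul_zero, sub_zero]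
    · intro u _ v _
      have h1 := skew (e j) v
      simp only [LinearMap.smulRight_apply, LinearMap.smul_apply, LinearMap.flip_apply, map_smul,
        smul_eq_mul]
      linear_combination (2 * β u (e j)) * h1
    · intro x _ y _
      rw [Submodule.mem_bot]
      have h1 := hR.bracket (e j) (e j) x y
      rw [hX, zero_mul, mul_zero, sub_zero] at h1
      rw [h1]
      simp only [LinearMap.smulRight_apply, LinearMap.smul_apply, LinearMap.flip_apply, map_smul,
        smul_eq_mul, map_add, LinearMap.add_apply]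
      module
    · refine ⟨f j, Submodule.mem_top, ?_⟩
      simp only [LinearMap.smulRight_apply, LinearMap.smul_apply, LinearMap.flip_apply, hfej,
        smul_eq_mul]
      exact smul_ne_zero (by norm_num) hej0
  obtain ⟨l₀, hl₀, hev⟩ : ∃ l : k, l ≠ 0 ∧ (R (e j) (f j)).HasEigenvalue l := by
    by_contra hcon
    push Not at hcon
    exact hnil (W5_nil hcon)
  have hJ : ∃ u ∈ (R (e j) (f j)).eigenspace l₀, u ≠ 0 ∧ ∃ τ : Option (Fin d) → k,
      ∀ i : Option (Fin d), (i.elim Y fun l => R (e l) (f l)) u = τ i • u := by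
    refine exists_joint (fun i : Option (Fin d) => i.elim Y fun l => R (e l) (f l)) ?_
      ((R (e j) (f j)).eigenspace l₀) hev ?_
    · rintro (_ | l) (_ | m)
      · rfl
      · exact hYt m
      · exact (hYt l).symm
      · exact htt l m
    · have hcomm : ∀ i : Option (Fin d), R (e j) (f j) * (i.elim Y fun l => R (e l) (f l)) =
          (i.elim Y fun l => R (e l) (f l)) * R (e j) (f j) := by
        rintro (_ | l)
        · exact (hYt j).symm
        · exact htt j l
      intro i u hu
      rw [Module.End.mem_eigenspace_iff] at hu ⊢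
      have h1 := congrArg (fun T : End k S => T u) (hcomm i)
      simp only [Module.End.mul_apply] at h1
      rw [h1, hu, map_smul]
  obtain ⟨u, huC, hu0, τ, hτ⟩ := hJ
  have hint : ∀ l, ∃ n : ℤ, τ (some l) = (n : k) := by
    intro l
    refine int_eig (x := -((1 / 2 : k) • R (e l) (e l))) (y := (1 / 2 : k) • R (f l) (f l))
      (h := R (e l) (f l)) ?_ ?_ ?_ hu0 (hτ (some l))
    · have h1 := hEF l
      have h2 : -((1 / 2 : k) • R (e l) (e l)) * ((1 / 2 : k) • R (f l) (f l)) -
          (1 / 2 : k) • R (f l) (f l) * -((1 / 2 : k) • R (e l) (e l)) =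
          (-(1 / 4) : k) • (R (e l) (e l) * R (f l) (f l) - R (f l) (f l) * R (e l) (e l)) := by
        simp only [neg_mul, mul_neg, smul_mul_smul_comm]
        module
      rw [h2, h1, smul_smul]
      norm_num
    · have h1 := hE l
      have h2 : R (e l) (f l) * -((1 / 2 : k) • R (e l) (e l)) -
          -((1 / 2 : k) • R (e l) (e l)) * R (e l) (f l) =
          (-(1 / 2) : k) • (R (e l) (f l) * R (e l) (e l) - R (e l) (e l) * R (e l) (f l)) := by
        simp only [neg_mul, mul_neg, mul_smul_comm, smul_mul_assoc]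
        module
      rw [h2, h1]
      module
    · have h1 := hF l
      have h2 : R (e l) (f l) * ((1 / 2 : k) • R (f l) (f l)) -
          (1 / 2 : k) • R (f l) (f l) * R (e l) (f l) =
          (1 / 2 : k) • (R (e l) (f l) * R (f l) (f l) - R (f l) (f l) * R (e l) (f l)) := by
        simp only [mul_smul_comm, smul_mul_assoc]
        module
      rw [h2, h1]
      module
  choose χ hχ using hint
  have hj : τ (some j) = l₀ := by
    have h1 : R (e j) (f j) u = τ (some j) • u := hτ (some j)
    have h2 : R (e j) (f j) u = l₀ • u := Module.End.mem_eigenspace_iff.1 huC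
    rw [h1] at h2
    exact smul_left_injective k hu0 h2
  refine ⟨τ none, χ, ?_, u, hu0, hτ none, fun l => ?_⟩
  · intro h0
    apply hl₀
    rw [← hj, hχ j, h0, Pi.zero_apply, Int.cast_zero]
  · rw [← hχ l]
    exact hτ (some l)

end Pool.Agent.Lib.MP_021685_agO5
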