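import Pool.Agent.Lib.MP_021685_agO5.G1
import Pool.Agent.Lib.MP_021685_agO4.A5

/-!
# W6: weights and dimensions of generalised eigenspaces
-/

set_option autoImplicit false
set_option linter.unusedSectionVars false

namespace Pool.Agent.Lib.MP_021685_agO5

open Module Function Pool.Agent.Lib.MP_021685_agO4

variable {k V S : Type*} [Field k] [CharZero k] [AddCommGroup V] [Module k V] [AddCommGroup S]
  [Module k S] [FiniteDimensional k S]

private theorem W6_lin {R : V →ₗ[k] V →ₗ[k] End k S} {d m : ℕ} {e f : Fin d → V}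
    {w : Fin m → Fin d → ℤ} (hw : Function.Injective w) (u : Fin m → S) (hu : ∀ i, u i ≠ 0)
    (h : ∀ i l, R (e l) (f l) (u i) = ((w i l : ℤ) : k) • u i) : LinearIndependent k u := by
  have hinj : Function.Injective (fun (i : Fin m) (l : Fin d) => ((w i l : ℤ) : k)) := by
    intro i j hij
    exact hw (funext fun l => Int.cast_injective (congrFun hij l))
  exact linInd_joint (fun l : Fin d => R (e l) (f l)) (fun i l => ((w i l : ℤ) : k)) hinj u hu h

/-- PROOF. Choose joint eigenvectors `u i` for the weights `(a, w i)`. By `linInd_joint` (operators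
`R (e l) (f l)`, eigenvalues `fun l => (w i l : k)`, injective by `hw` and `Int.cast_injective`) they are linearly
independent, and they are in the eigenspace of `Y` for `a`, so in `Y.maxGenEigenspace a`.
`LinearIndependent.fintype_card_le_finrank` in this subspace. (See `dim_eig` in `MP_021685_agO4/B9.lean`.) -/
theorem dimV_eig {R : V →ₗ[k] V →ₗ[k] End k S} {Y : End k S} {d m : ℕ} {e f : Fin d → V} {a : k}
    {w : Fin m → Fin d → ℤ} (hw : Function.Injective w) (h : ∀ i, WtV R Y e f a (w i)) :
    m ≤ finrank k (Y.maxGenEigenspace a) := by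
  choose u hu0 hu1 hu2 using h
  have hlin := W6_lin hw u hu0 hu2
  have hmem : ∀ i, u i ∈ Y.maxGenEigenspace a := by
    intro i
    rw [Module.End.mem_maxGenEigenspace]
    refine ⟨1, ?_⟩
    rw [pow_one, LinearMap.sub_apply, LinearMap.smul_apply, Module.End.one_apply, hu1 i, sub_self]
  have h2 : LinearIndependent k (fun i => (⟨u i, hmem i⟩ : Y.maxGenEigenspace a)) :=
    LinearIndependent.of_comp (Y.maxGenEigenspace a).subtype hlin
  have h3 := h2.fintype_card_le_finrank
  rwa [Fintype.card_fin] at h3

/-- PROOF. As `dimV_eig`: `m` linearly independent vectors in `S`. -/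
theorem dimV_all {R : V →ₗ[k] V →ₗ[k] End k S} {Y : End k S} {d m : ℕ} {e f : Fin d → V}
    {b : Fin m → k} {w : Fin m → Fin d → ℤ} (hw : Function.Injective w)
    (h : ∀ i, WtV R Y e f (b i) (w i)) : m ≤ finrank k S := by
  choose u hu0 hu1 hu2 using h
  have hlin := W6_lin hw u hu0 hu2
  have h3 := hlin.fintype_card_le_finrank
  rwa [Fintype.card_fin] at h3

end Pool.Agent.Lib.MP_021685_agO5
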