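import Pool.Agent.Lib.MP_021685_agO5.W1
import Pool.Agent.Lib.MP_021685_agO5.W2
import Pool.Agent.Lib.MP_021685_agO5.W3
import Pool.Agent.Lib.MP_021685_agO5.W5
import Pool.Agent.Lib.MP_021685_agO5.W6
import Pool.Agent.Lib.MP_021685_agO4.A4
import Pool.Agent.Lib.MP_021685_agO4.A8

/-!
# W7: large generalised eigenspaces
-/

set_option autoImplicit false
set_option linter.unusedSectionVars false

namespace Pool.Agent.Lib.MP_021685_agO5

open Module Function Pool.Agent.Lib.MP_021685_agO4

variable {k V S : Type*} [Field k] [CharZero k] [IsAlgClosed k] [AddCommGroup V] [Module k V]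
  [FiniteDimensional k V] [AddCommGroup S] [Module k S] [FiniteDimensional k S]

/-- PROOF. Take `d`, `e`, `f` from `exists_sbV`. `d ≠ 0`: otherwise `finrank k V = 0` and `R = 0`. By
`exists_wtV` there is a weight `(a, χ)` with `χ ≠ 0`; the weights are stable under sign changes and
transpositions (`wtV_sign`, `wtV_swap`).
* `d ≠ 2`: `comb_gen` and `dimV_eig`: two distinct eigenvalues `a₁`, `a₂` of `Y` with generalised eigenspaces
  of dimension `≥ d`. This gives the first statement, and the second: the two generalised eigenspaces are disjoint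
  (`Module.End.independent_maxGenEigenspace`, or `Module.End.disjoint_genEigenspace`), so `2 * d ≤ finrank k S`.
* `d = 2` (`finrank k V = 4`): the first statement is void, and `comb_two` with `dimV_all` gives
  `4 ≤ finrank k S`. -/
theorem sp_big {β : V →ₗ[k] V →ₗ[k] k} (alt : ∀ u, β u u = 0)
    (nondeg : ∀ u, (∀ v, β u v = 0) → u = 0) {h : End k V} (hh : h * h = h)
    (hβ : ∀ u v, β (h u) v + β u (h v) = β u v) {R : V →ₗ[k] V →ₗ[k] End k S} {Y : End k S}
    (hR : SpRep β h R Y) (hne : ∃ x y, R x y ≠ 0) :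
    (finrank k V ≠ 4 → ∃ a b : k, a ≠ b ∧ finrank k V ≤ 2 * finrank k (Y.maxGenEigenspace a) ∧
      finrank k V ≤ 2 * finrank k (Y.maxGenEigenspace b)) ∧ finrank k V ≤ finrank k S := by
  obtain ⟨d, e, f, hb, hdim⟩ := exists_sbV alt nondeg hh hβ
  have hd0 : 0 < d := by
    rcases Nat.eq_zero_or_pos d with h0 | h0
    · exfalso
      rw [h0, mul_zero] at hdim
      have hs : Subsingleton V := Module.finrank_zero_iff.1 hdim
      obtain ⟨x, y, hxy⟩ := hne
      apply hxy
      rw [Subsingleton.elim x 0, map_zero, LinearMap.zero_apply]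
    · exact h0
  obtain ⟨a, χ, hχ, hw⟩ := exists_wtV alt nondeg hR hb ⟨0, hd0⟩ hne
  have hsign : ∀ (a : k) (χ : Fin d → ℤ) (i : Fin d), WtV R Y e f a χ →
      WtV R Y e f (a - (χ i : k)) (Function.update χ i (-χ i)) := fun a χ i hw => wtV_sign hR hb i hw
  have hswap : ∀ (a : k) (χ : Fin d → ℤ) (i j : Fin d), WtV R Y e f a χ →
      WtV R Y e f a (χ ∘ Equiv.swap i j) := fun a χ i j hw => wtV_swap hR hb i j hw
  by_cases hd2 : d = 2
  · subst hd2
    obtain ⟨b, w, hwi, hwt⟩ := comb_two (fun a χ => WtV R Y e f a χ) hsign hswap hw hχ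
    refine ⟨fun h4 => absurd hdim h4, ?_⟩
    rw [hdim]
    exact dimV_all hwi hwt
  · obtain ⟨a₁, a₂, w₁, w₂, hne', hi₁, hi₂, h₁, h₂⟩ :=
      comb_gen hd2 (fun a χ => WtV R Y e f a χ) hsign hswap hw hχ
    have e1 := dimV_eig hi₁ h₁
    have e2 := dimV_eig hi₂ h₂
    refine ⟨fun _ => ⟨a₁, a₂, hne', ?_, ?_⟩, ?_⟩
    · rw [hdim]
      exact Nat.mul_le_mul_left 2 e1
    · rw [hdim]
      exact Nat.mul_le_mul_left 2 e2
    · have e3 : finrank k (Y.maxGenEigenspace a₁) + finrank k (Y.maxGenEigenspace a₂) ≤ finrank k S :=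
        Submodule.finrank_add_finrank_le_of_disjoint
          ((Module.End.independent_maxGenEigenspace Y).pairwiseDisjoint hne')
      omega

end Pool.Agent.Lib.MP_021685_agO5
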