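import Pool.Agent.Lib.MP_021685_agO5.S1
import Pool.Agent.Lib.MP_021685_agO5.W7
import Pool.Agent.Lib.MP_021685_agO5.E6

/-!
# S2: splitting, one block
-/

set_option autoImplicit false
set_option linter.unusedSectionVars false

namespace Pool.Agent.Lib.MP_021685_agO5

open Module Function Pool.Agent.Lib.MP_021685_agO Pool.Agent.Lib.MP_021685_agO4

variable {k H N : Type*} [Field k] [CharZero k] [IsAlgClosed k] [AddCommGroup H] [Module k H]
  [FiniteDimensional k H] [AddCommGroup N] [Module k N] [FiniteDimensional k N]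
  {g : Submodule k (End k H)} {c : End k H → k} {H₀ H₁ : Submodule k H}

/-- PROOF. Let `I` be the submodule of the `X` with `(X, 0) ∈ G`. It is stable under the brackets with the
`FF D φ x y` (lift `FF D φ x y` to an element `Q` of `G`, `hGs`: `(X, 0) * Q - Q * (X, 0) = ([X, FF], 0)`), so
`ideal_FF` applies. -/
theorem split_of_mem (D : Dec g c H₀ H₁) {φ : D.Φ} {G : Submodule k (End k H × End k N)}
    (hG : ∀ P ∈ G, ∀ Q ∈ G, P * Q - Q * P ∈ G)
    (hGs : ∀ x ∈ D.W φ, ∀ y ∈ D.W φ, ∃ P ∈ G, P.1 = FF D φ x y)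
    {X : End k H} (hX : (X, (0 : End k N)) ∈ G) (hXs : X ∈ sFF D φ) (hX0 : X ≠ 0) :
    ∀ x ∈ D.W φ, ∀ y ∈ D.W φ, (FF D φ x y, (0 : End k N)) ∈ G := by
  have h1 : ∀ x ∈ D.W φ, ∀ y ∈ D.W φ,
      FF D φ x y ∈ G.comap (LinearMap.inl k (End k H) (End k N)) := by
    refine ideal_FF D (G.comap (LinearMap.inl k (End k H) (End k N))) ?_ (A := X) hX hXs hX0
    intro A hA _ x hx y hy
    obtain ⟨Q, hQ, hQ1⟩ := hGs x hx y hy
    have h2 : (A, (0 : End k N)) ∈ G := hA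
    have h3 := hG _ h2 Q hQ
    have h4 : (A, (0 : End k N)) * Q - Q * (A, (0 : End k N)) =
        (A * FF D φ x y - FF D φ x y * A, (0 : End k N)) := by
      refine Prod.ext ?_ ?_
      · rw [Prod.fst_sub, Prod.fst_mul, Prod.fst_mul, hQ1]
      · rw [Prod.snd_sub, Prod.snd_mul, Prod.snd_mul, zero_mul, mul_zero, sub_zero]
    rw [h4] at h3
    exact h3
  exact h1

/-- PROOF. `hno` of `exists_spRep` holds: otherwise `split_of_mem` gives a contradiction to `hne`. Let `β'` be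
`(D.β φ).compl₁₂ (D.W φ).subtype (D.W φ).subtype` and `h'` the restriction of `P₀.1` to `D.W φ`
(`LinearMap.restrict`; `D.W φ` is stable, `hh.1`). Take `B`, `B'`, `R`, `Y` from `exists_spRep` and apply
`sp_big` with `V = D.W φ`, `S = B' / B` (`(D.sympl φ).alt`, `.nondeg`; `h' * h' = h'` from `hh.2.1`;
`β' (h' u) v + β' u (h' v) = c h * β' u v = β' u v` from `.mult` and `hh.2.2`). If `finrank k (D.W φ) ≠ 4`: two
distinct `a`, `b` with large generalised eigenspaces of `Y`, and those of `P₀.2` are at least as large by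
`finrank_gen_le`. If it is `4`: `4 ≤ finrank k (B' / B) ≤ finrank k N`
(`Submodule.finrank_quotient_le`, `Submodule.finrank_le`). The general second statement: the same. -/
theorem split_one (hlie : ∀ X ∈ g, ∀ Y ∈ g, X * Y - Y * X ∈ g) (D : Dec g c H₀ H₁) {φ : D.Φ}
    {G : Submodule k (End k H × End k N)} (hG : ∀ P ∈ G, ∀ Q ∈ G, P * Q - Q * P ∈ G)
    (hGs : ∀ x ∈ D.W φ, ∀ y ∈ D.W φ, ∃ P ∈ G, P.1 = FF D φ x y)
    {P₀ : End k H × End k N} (hP₀ : P₀ ∈ G) (hh : IsHodgeElt g c P₀.1)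
    (hne : ∃ x ∈ D.W φ, ∃ y ∈ D.W φ, (FF D φ x y, (0 : End k N)) ∉ G) :
    (finrank k (D.W φ) ≠ 4 → ∃ a b : k, a ≠ b ∧
      finrank k (D.W φ) ≤ 2 * finrank k (P₀.2.maxGenEigenspace a) ∧
      finrank k (D.W φ) ≤ 2 * finrank k (P₀.2.maxGenEigenspace b)) ∧
    finrank k (D.W φ) ≤ finrank k N := by
  have hno : ∀ X ∈ sFF D φ, (X, (0 : End k N)) ∈ G → X = 0 := by
    intro X hX hXG
    by_contra h0
    obtain ⟨x, hx, y, hy, hxy⟩ := hne
    exact hxy (split_of_mem D hG hGs hXG hX h0 x hx y hy)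
  have hst : ∀ u ∈ D.W φ, P₀.1 u ∈ D.W φ := fun u hu => (D.simple φ).2.1 P₀.1 hh.1 u hu
  have hβ' : ∀ u v : D.W φ, (D.β φ).compl₁₂ (D.W φ).subtype (D.W φ).subtype u v = D.β φ u v :=
    fun u v => rfl
  have hh' : ∀ u : D.W φ, ((P₀.1.restrict hst) u : H) = P₀.1 u := fun u => rfl
  obtain ⟨B, B', hB, hB', R, Y, hR, hRne, hY⟩ := exists_spRep hlie D hG hGs hP₀ hh hno hβ' hh'
  have hs := D.sympl φ
  have h1 := sp_big (fun u => (hβ' u u).trans (hs.alt u u.2))
    (fun u hu => Subtype.ext (hs.nondeg u u.2 fun v hv => (hβ' u ⟨v, hv⟩).symm.trans (hu ⟨v, hv⟩)))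
    (LinearMap.ext fun u => Subtype.ext (LinearMap.congr_fun hh.2.1 (u : H)))
    (fun u v => by
      have h2 := hs.mult P₀.1 hh.1 u u.2 v v.2
      rw [hh.2.2, one_mul] at h2
      rw [hβ', hβ', hβ', hh', hh']
      exact h2) hR hRne
  refine ⟨fun h4 => ?_, h1.2.trans ((Submodule.finrank_quotient_le _).trans (Submodule.finrank_le B'))⟩
  obtain ⟨a, b, hab, ha, hb⟩ := h1.1 h4
  exact ⟨a, b, hab,
    ha.trans (Nat.mul_le_mul_left 2 (finrank_gen_le P₀.2 hB hB' Y hY a)),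
    hb.trans (Nat.mul_le_mul_left 2 (finrank_gen_le P₀.2 hB hB' Y hY b))⟩

end Pool.Agent.Lib.MP_021685_agO5
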