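import Pool.Agent.Lib.MP_021685_agO5.Defs
import Pool.Agent.Lib.MP_021685_agO5.S2

/-!
# S4: splitting for small spaces
-/

set_option autoImplicit false
set_option linter.unusedSectionVars false

namespace Pool.Agent.Lib.MP_021685_agO5

open Module Function Pool.Agent.Lib.MP_021685_agO Pool.Agent.Lib.MP_021685_agO4

variable {k H J : Type*} {N : J → Type*} [Field k] [CharZero k] [IsAlgClosed k] [AddCommGroup H]
  [Module k H] [FiniteDimensional k H] [∀ j, AddCommGroup (N j)] [∀ j, Module k (N j)]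
  [∀ j, FiniteDimensional k (N j)]
  {g : Submodule k (End k H)} {c : End k H → k} {H₀ H₁ : Submodule k H}

/-- There is a Hodge element if `g` is not zero. -/
private theorem S4_hodge (hg : IsGaloisAlg g c) {X : End k H} (hX : X ∈ g) (h0 : X ≠ 0) :
    ∃ h, IsHodgeElt g c h := by
  by_contra hne
  have h1 : {h | IsHodgeElt g c h} = (∅ : Set (End k H)) := by
    rw [Set.eq_empty_iff_forall_notMem]
    intro h hh
    exact hne ⟨h, hh⟩
  have h2 := hg.span X hX
  rw [h1, Submodule.span_empty, Submodule.mem_bot] at h2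
  exact h0 h2

/-- The third case, for one space. -/
private theorem S4_kill {M : Type*} [AddCommGroup M] [Module k M] (D : Dec g c H₀ H₁) (φ : D.Φ)
    {G : Submodule k (End k H × End k M)} (hG : ∀ P ∈ G, ∀ Q ∈ G, P * Q - Q * P ∈ G)
    (hGs : ∀ x ∈ D.W φ, ∀ y ∈ D.W φ, ∃ P ∈ G, P.1 = FF D φ x y) {P : End k H × End k M} (hP : P ∈ G)
    (hPg : P.1 ∈ g) {a : k} (ha : P.2 = a • (1 : End k M)) {u : H} (hu : u ∈ D.W φ)
    (hne : ∀ b : k, P.1 u ≠ b • u) :
    ∀ x ∈ D.W φ, ∀ y ∈ D.W φ, (FF D φ x y, (0 : End k M)) ∈ G := by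
  have hst := (D.simple φ).2.1 P.1 hPg
  refine ideal_core (D.W φ) (D.β φ) (D.sympl φ).alt (D.sympl φ).nondeg (FF D φ) (FF_symm D φ)
    (G.comap (LinearMap.inl k (End k H) (End k M))) ?_ (P.1 - (c P.1 / 2) • (1 : End k H)) ?_ ?_ ?_ ?_
  · intro x hx y hy hxy z hz w hw
    obtain ⟨Q, hQ, hQ1⟩ := hGs z hz w hw
    have h1 : (FF D φ x y, (0 : End k M)) ∈ G := hxy
    have h2 := hG _ h1 Q hQ
    have h3 : (FF D φ x y, (0 : End k M)) * Q - Q * (FF D φ x y, (0 : End k M)) =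
        (FF D φ x y * FF D φ z w - FF D φ z w * FF D φ x y, (0 : End k M)) := by
      refine Prod.ext ?_ ?_
      · show FF D φ x y * Q.1 - Q.1 * FF D φ x y = _
        rw [hQ1]
      · show (0 : End k M) * Q.2 - Q.2 * 0 = 0
        rw [zero_mul, mul_zero, sub_zero]
    rw [h3, FF_bracket D hz hw (FF_mem D hx hy), FF_c D hx hy, zero_smul, sub_zero,
      FF_on D hx hy hz, FF_on D hx hy hw] at h2
    exact h2
  · intro v hv
    rw [LinearMap.sub_apply, LinearMap.smul_apply, Module.End.one_apply]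
    exact (D.W φ).sub_mem (hst v hv) ((D.W φ).smul_mem _ hv)
  · intro v hv w hw
    have h1 := (D.sympl φ).mult P.1 hPg v hv w hw
    rw [LinearMap.sub_apply, LinearMap.smul_apply, Module.End.one_apply, LinearMap.sub_apply,
      LinearMap.smul_apply, Module.End.one_apply, map_sub, map_smul, LinearMap.sub_apply,
      LinearMap.smul_apply, map_sub, map_smul, smul_eq_mul]
    linear_combination h1
  · intro x hx y hy
    have hFx : FF D φ ((P.1 - (c P.1 / 2) • (1 : End k H)) x) y +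
        FF D φ x ((P.1 - (c P.1 / 2) • (1 : End k H)) y) =
        P.1 * FF D φ x y - FF D φ x y * P.1 := by
      rw [FF_bracket D hx hy hPg, LinearMap.sub_apply, LinearMap.smul_apply, Module.End.one_apply,
        LinearMap.sub_apply, LinearMap.smul_apply, Module.End.one_apply, map_sub, map_smul,
        LinearMap.sub_apply, LinearMap.smul_apply, map_sub, map_smul]
      module
    obtain ⟨Q, hQ, hQ1⟩ := hGs x hx y hy
    have h2 := hG P hP Q hQ
    have h3 : P * Q - Q * P = (P.1 * FF D φ x y - FF D φ x y * P.1, (0 : End k M)) := by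
      refine Prod.ext ?_ ?_
      · show P.1 * Q.1 - Q.1 * P.1 = _
        rw [hQ1]
      · show P.2 * Q.2 - Q.2 * P.2 = 0
        rw [ha, smul_mul_assoc, one_mul, mul_smul_comm, mul_one, sub_self]
    rw [h3] at h2
    rw [hFx]
    exact h2
  · refine ⟨u, hu, fun h => hne (c P.1 / 2) ?_⟩
    rw [LinearMap.sub_apply, LinearMap.smul_apply, Module.End.one_apply] at h
    exact sub_eq_zero.1 h

/-- PROOF. Let `G'` be the image of `G` under `(X, Y) ↦ (X, Y j)` (`Submodule.map` by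
`LinearMap.prodMap LinearMap.id (LinearMap.proj j)`), a subspace of `End k H × End k (N j)`, closed under brackets
and with elements over all the `FF D φ x y` (`hG`, `FF_mem`). We show `(FF D φ x y, 0) ∈ G'` for all
`x, y ∈ D.W φ`. Three cases of `IsSmallAt`.
* `finrank k (N j) < finrank k (D.W φ)`: `g` contains the element `FF D φ e e ≠ 0` (`exists_pair`, `FF_self_ne`), so
  there is a Hodge element `h` (`hg.span`: otherwise `g = 0`); lift it to `P₀ ∈ G'` (`hG`, `h ∈ g`). If some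
  `(FF D φ x y, 0)` is not in `G'`, `split_one` gives `finrank k (D.W φ) ≤ finrank k (N j)`: contradiction.
* `finrank k (D.W φ) ≠ 4`, `P ∈ G`, ...: `split_one` with `P₀ = (P.1, P.2 j)`: contradiction.
* `P ∈ G`, `P.2 j = a • 1`, `u ∈ D.W φ`, `P.1 u ≠ b • u` for all `b`. Let `A = P.1 - (c P.1 / 2) • 1`; it maps
  `D.W φ` to itself, is skew on it (`(D.sympl φ).mult`), and `A u ≠ 0`. Apply `ideal_core` (`A2.lean`) with
  `W = D.W φ`, `F = FF D φ`, `A`, and `I` the submodule of the `X` with `(X, 0) ∈ G'`: `hI`: as in `split_of_mem`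
  (the element is `FF x y * FF z w - FF z w * FF x y`, by `FF_bracket`, `FF_c`, `FF_on`); `hA`: by bilinearity
  `FF (A x) y + FF x (A y) = FF (P.1 x) y + FF x (P.1 y) - c P.1 • FF x y = P.1 * FF x y - FF x y * P.1`
  (`FF_bracket`), and the bracket of `(P.1, a • 1) ∈ G'` and of a lift of `FF x y` is
  `(P.1 * FF x y - FF x y * P.1, 0)`. -/
theorem small_split (hg : IsGaloisAlg g c) (D : Dec g c H₀ H₁) (φ : D.Φ)
    {G : Submodule k (End k H × (∀ j, End k (N j)))} (hGlie : ∀ P ∈ G, ∀ Q ∈ G, P * Q - Q * P ∈ G)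
    (hG : ∀ X, X ∈ g ↔ ∃ Y, (X, Y) ∈ G) (j : J) (hN : IsSmallAt g c G j (D.W φ)) :
    ∀ x ∈ D.W φ, ∀ y ∈ D.W φ, ∃ P ∈ G, P.1 = FF D φ x y ∧ P.2 j = 0 := by
  let L : (End k H × (∀ j, End k (N j))) →ₗ[k] (End k H × End k (N j)) :=
    LinearMap.prodMap LinearMap.id (LinearMap.proj j)
  have hL : ∀ P, L P = (P.1, P.2 j) := fun _ => rfl
  have hG'mem : ∀ P ∈ G, (P.1, P.2 j) ∈ G.map L := fun P hP => ⟨P, hP, rfl⟩
  have hG'lie : ∀ P ∈ G.map L, ∀ Q ∈ G.map L, P * Q - Q * P ∈ G.map L := by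
    rintro _ ⟨P, hP, rfl⟩ _ ⟨Q, hQ, rfl⟩
    exact ⟨P * Q - Q * P, hGlie P hP Q hQ, rfl⟩
  have hGs : ∀ x ∈ D.W φ, ∀ y ∈ D.W φ, ∃ P ∈ G.map L, P.1 = FF D φ x y := by
    intro x hx y hy
    obtain ⟨Y, hY⟩ := (hG _).1 (FF_mem D hx hy)
    exact ⟨_, hG'mem _ hY, rfl⟩
  suffices key : ∀ x ∈ D.W φ, ∀ y ∈ D.W φ, (FF D φ x y, (0 : End k (N j))) ∈ G.map L by
    intro x hx y hy
    obtain ⟨P, hP, hPe⟩ := key x hx y hy
    rw [hL] at hPe
    exact ⟨P, hP, congrArg Prod.fst hPe, congrArg Prod.snd hPe⟩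
  by_contra hcon
  have hex : ∃ x ∈ D.W φ, ∃ y ∈ D.W φ, (FF D φ x y, (0 : End k (N j))) ∉ G.map L := by
    by_contra h
    refine hcon fun x hx y hy => ?_
    by_contra h1
    exact h ⟨x, hx, y, hy, h1⟩
  rcases hN with hN | ⟨h4, P, hP, hh, hab⟩ | ⟨P, hP, ⟨a, ha⟩, u, hu, hne⟩
  · obtain ⟨e, he, f, hf, -, hfe, -, -⟩ := exists_pair D φ
    obtain ⟨h, hh⟩ := S4_hodge hg (FF_mem D he he) (FF_self_ne D he hf hfe)
    obtain ⟨Y, hY⟩ := (hG h).1 hh.1
    have h1 := (split_one hg.lie D hG'lie hGs (hG'mem _ hY) hh hex).2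
    omega
  · obtain ⟨a, b, hab', h1, h2⟩ := (split_one hg.lie D hG'lie hGs (hG'mem _ hP) hh hex).1 h4
    exact hab' (hab a b h1 h2)
  · exact hcon (S4_kill D φ hG'lie hGs (hG'mem _ hP) ((hG P.1).2 ⟨P.2, hP⟩) ha hu hne)

/-- PROOF. As `small_iso` (`MP_021685_agO4/D1.lean`). -/
theorem smallAt_iso {G : Submodule k (End k H × (∀ j, End k (N j)))} {j : J}
    {W U : Submodule k H} (hW : IsSimpleSub g W) (hU : IsSimpleSub g U) (hI : Iso g W U)
    (hG1 : ∀ P ∈ G, P.1 ∈ g) (hN : IsSmallAt g c G j U) : IsSmallAt g c G j W := by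
  obtain ⟨φ, hφ, hφU⟩ := hI
  have hinj : ∀ w ∈ W, φ w = 0 → w = 0 := fun w hw h0 =>
    simple_inj hW hφ (by rw [hφU]; exact hU.1) hw h0
  have hinj' : Function.Injective (φ.domRestrict W) := by
    rw [← LinearMap.ker_eq_bot, LinearMap.ker_eq_bot']
    rintro ⟨w, hw⟩ h1
    exact Subtype.ext (hinj w hw h1)
  have hdim : finrank k W = finrank k U := by
    rw [← LinearMap.finrank_range_of_inj hinj', LinearMap.range_domRestrict, hφU]
  rcases hN with h1 | h1 | ⟨P, hP, ha, u, hu, hb⟩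
  · left
    rw [hdim]
    exact h1
  · right
    left
    rw [hdim]
    exact h1
  · right
    right
    rw [← hφU] at hu
    obtain ⟨w, hw, rfl⟩ := Submodule.mem_map.1 hu
    refine ⟨P, hP, ha, w, hw, fun b h => hb b ?_⟩
    have h2 := LinearMap.congr_fun (hφ P.1 (hG1 P hP)) w
    have h3 : φ (P.1 w) = P.1 (φ w) := h2
    rw [← h3, h, map_smul]

end Pool.Agent.Lib.MP_021685_agO5
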