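import Pool.Agent.Lib.MP_021685_agO5.S3
import Pool.Agent.Lib.MP_021685_agO5.S4
import Pool.Agent.Lib.MP_021685_agO4.C6
import Pool.Agent.Lib.MP_021685_agO4.D2
import Pool.Agent.Lib.MP_021685_agN.NF3

/-!
# Tate classes on products `A ^ n × Z`: the main theorem
-/

set_option autoImplicit false

namespace Pool.Agent.Lib.MP_021685_agO5

open Module Function Pool.Agent.Lib.MP_021685_agO Pool.Agent.Lib.MP_021685_agZ
  Pool.Agent.Lib.MP_021685_agN Pool.Agent.Lib.MP_021685_agO4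

section

variable {k H J : Type*} {N : J → Type*} {N' : Type*} [Field k] [CharZero k] [IsAlgClosed k]
  [AddCommGroup H] [Module k H] [FiniteDimensional k H] [Fintype J] [∀ j, AddCommGroup (N j)]
  [∀ j, Module k (N j)] [∀ j, FiniteDimensional k (N j)] [AddCommGroup N'] [Module k N']
  {g : Submodule k (End k H)} {c : End k H → k}
  {G : Submodule k (End k H × (∀ j, End k (N j)))}

theorem mainJ (hg : IsGaloisAlg g c) {H₀ H₁ : Submodule k H} (hc : IsCompl H₀ H₁)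
    (h₀ : IsStable g H₀) (h₁ : IsStable g H₁)
    (hHom : ∀ φ : End k H, (∀ X ∈ g, φ * X = X * φ) → ∀ u ∈ H₁, φ u ∈ H₁)
    (hodd : H₁ ≤ sSup {V | OddSimple g c V ∨ OddDiv g c V})
    (hGlie : ∀ P ∈ G, ∀ Q ∈ G, P * Q - Q * P ∈ G) (hG : ∀ X, X ∈ g ↔ ∃ Y, (X, Y) ∈ G)
    (hN : ∀ j, ∀ U ≤ H₁, IsSimpleSub g U → IsSmallAt g c G j U)
    (θ : (∀ j, End k (N j)) →ₗ[k] End k N') (i s : ℕ)
    (T : MultilinearMap k (fun _ : Fin s => H) N')
    (hT : IsTateMap (G.map (LinearMap.id.prodMap θ)) c i s T) :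
    IsGenMap g c (G.map (LinearMap.id.prodMap θ)) H₁ i s T := by
  have hG1 : ∀ P ∈ G, P.1 ∈ g := fun P hP => (hG P.1).2 ⟨P.2, hP⟩
  obtain ⟨D, hD⟩ := exists_dec_pred hg hc h₀ h₁ hHom (fun W => ∀ j, IsSmallAt g c G j W)
    (fun U hU hUs => by
      have h1 : sSup {V | OddSimple g c V ∨ OddDiv g c V} ≤ sSup {W | OddSimple g c W} := by
        refine sSup_le fun V hV => ?_
        rcases hV with hV | hV
        · exact le_sSup hV
        · exact oddDiv_le hg hV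
      obtain ⟨W, hW, hiso⟩ := iso_of_le_sSup hg (S := {W | OddSimple g c W})
        (fun W hW => hW.1.2.1) hUs (hU.trans (hodd.trans h1))
      obtain ⟨β, hs, hfull⟩ := full_of_odd hg hW
      exact ⟨W, β, hW.1, hs, hfull, hiso, fun j => smallAt_iso hW.1 hUs hiso hG1 (hN j U hU hUs)⟩)
  have hGs : ∀ φ, ∀ x ∈ D.W φ, ∀ y ∈ D.W φ, ∃ P ∈ G, P.1 = FF D φ x y := by
    intro φ x hx y hy
    obtain ⟨Y, hY⟩ := (hG _).1 (FF_mem D hx hy)
    exact ⟨_, hY, rfl⟩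
  have hsplit : ∀ φ, ∀ x ∈ D.W φ, ∀ y ∈ D.W φ, (FF D φ x y, (0 : ∀ j, End k (N j))) ∈ G := fun φ =>
    split_all D hGlie (hGs φ) fun j => small_split hg D φ hGlie hG j (hD φ j)
  refine gen_of_decN hg D ?_ hT fun φ x hx y hy v => ?_
  · rintro _ ⟨P, hP, rfl⟩
    exact hG1 P hP
  · have h1 := hT _ (Submodule.mem_map_of_mem (hsplit φ x hx y hy)) v
    rw [LinearMap.prodMap_apply] at h1
    simp only [LinearMap.id_coe, id_eq, map_zero, LinearMap.zero_apply, add_zero, FF_c D hx hy,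
      mul_zero, zero_smul] at h1
    exact h1

end

variable {k₀ k ι J : Type*} {N : J → Type*} {N' : Type*} [Field k₀] [Field k] [CharZero k]
  [IsAlgClosed k] [Algebra k₀ k] [Fintype ι] [DecidableEq ι] [Fintype J]
  [∀ j, AddCommGroup (N j)] [∀ j, Module k (N j)] [∀ j, FiniteDimensional k (N j)]
  [AddCommGroup N'] [Module k N']
  {g : Submodule k (End k (ι → k))} {c : End k (ι → k) → k}
  {G : Submodule k (End k (ι → k) × (∀ j, End k (N j)))}

theorem main9 (hg : IsGaloisAlg g c) {H₀ H₁ : Submodule k (ι → k)} (hc : IsCompl H₀ H₁)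
    (h₀ : IsStable g H₀) (h₁ : IsStable g H₁)
    (hHom : ∀ φ : End k (ι → k), (∀ X ∈ g, φ * X = X * φ) → ∀ u ∈ H₁, φ u ∈ H₁)
    (hodd : H₁ ≤ sSup {V | OddDisc k₀ g c V ∨ OddSimple3 g c V ∨ OddPlace g c V})
    (hGlie : ∀ P ∈ G, ∀ Q ∈ G, P * Q - Q * P ∈ G) (hG : ∀ X, X ∈ g ↔ ∃ Y, (X, Y) ∈ G)
    (hN : ∀ j, ∀ U ≤ H₁, IsSimpleSub g U → IsSmallAt g c G j U)
    (θ : (∀ j, End k (N j)) →ₗ[k] End k N') (i s : ℕ)
    (T : MultilinearMap k (fun _ : Fin s => ι → k) N')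
    (hT : IsTateMap (G.map (LinearMap.id.prodMap θ)) c i s T) :
    IsGenMap g c (G.map (LinearMap.id.prodMap θ)) H₁ i s T := by
  refine mainJ hg hc h₀ h₁ hHom (hodd.trans (sSup_le_sSup fun V hV => ?_)) hGlie hG hN θ i s T hT
  rcases hV with hV | hV | hV
  · exact Or.inl (OddDisc.oddSimple hg hV)
  · exact Or.inl (OddSimple3.oddSimple hg.lie hV)
  · exact Or.inl (OddPlace.oddSimple hg hV)

end Pool.Agent.Lib.MP_021685_agO5
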