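import Pool.Agent.Lib.MP_021685_agO5.Main
import Pool.Agent.Lib.MP_021685_agO5.Defs2

/-!
# Tate classes on products of powers `A ^ n × Z ^ a × ..`: the main theorem for relations
-/

set_option autoImplicit false

namespace Pool.Agent.Lib.MP_021685_agO5

open Module Function Pool.Agent.Lib.MP_021685_agO Pool.Agent.Lib.MP_021685_agZ
  Pool.Agent.Lib.MP_021685_agN

section

variable {k H J : Type*} {N : J → Type*} {N' : Type*} [Field k]
  [AddCommGroup H] [Module k H] [∀ j, AddCommGroup (N j)]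
  [∀ j, Module k (N j)] [AddCommGroup N'] [Module k N']
  {g : Submodule k (End k H)} {c : End k H → k}
  {G : End k H → (∀ j, End k (N j)) → Prop}

/-- The space of the pairs of a relation. -/
def IsLieOver.sub (hG : IsLieOver g G) : Submodule k (End k H × (∀ j, End k (N j))) where
  carrier := {P | G P.1 P.2}
  add_mem' := fun {P Q} hP hQ => hG.add P.1 P.2 Q.1 Q.2 hP hQ
  zero_mem' := by
    obtain ⟨Y, hY⟩ := (hG.fst 0).1 g.zero_mem
    have h := hG.smul 0 0 Y hY
    have e1 : (0 : k) • (0 : End k H) = 0 := by simp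
    have e2 : (fun j => (0 : k) • Y j) = (0 : ∀ j, End k (N j)) := by
      funext j
      simp
    rw [e1, e2] at h
    exact h
  smul_mem' := fun a P hP => hG.smul a P.1 P.2 hP

theorem mem_sub (hG : IsLieOver g G) (P : End k H × (∀ j, End k (N j))) :
    P ∈ hG.sub ↔ G P.1 P.2 := Iff.rfl

theorem IsSmall.at (hG : IsLieOver g G) {j : J} {U : Submodule k H} (h : IsSmall g c G j U) :
    IsSmallAt g c hG.sub j U := by
  rcases h with h | ⟨h4, X, Y, hXY, hX, h⟩ | ⟨X, Y, hXY, ⟨a, ha⟩, h⟩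
  · exact Or.inl h
  · exact Or.inr (Or.inl ⟨h4, (X, Y), hXY, hX, h⟩)
  · refine Or.inr (Or.inr ⟨(X, Y), hXY, ⟨a, ?_⟩, h⟩)
    refine LinearMap.ext fun x => ?_
    rw [LinearMap.smul_apply, Module.End.one_apply]
    exact ha x

theorem tateMap_iff (hG : IsLieOver g G) (θ : (∀ j, End k (N j)) →ₗ[k] End k N') (i s : ℕ)
    (T : MultilinearMap k (fun _ : Fin s => H) N') :
    MP_021685_agO4.IsTateMap (hG.sub.map (LinearMap.id.prodMap θ)) c i s T ↔
      IsTateMap G c θ i s T := by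
  constructor
  · intro h X Y hXY v
    exact h _ (Submodule.mem_map_of_mem (show (X, Y) ∈ hG.sub from hXY)) v
  · rintro h _ ⟨P, hP, rfl⟩ v
    exact h P.1 P.2 hP v

theorem genMap_iff (hG : IsLieOver g G) (θ : (∀ j, End k (N j)) →ₗ[k] End k N') (H₁ : Submodule k H)
    (i s : ℕ) (T : MultilinearMap k (fun _ : Fin s => H) N') :
    MP_021685_agO4.IsGenMap g c (hG.sub.map (LinearMap.id.prodMap θ)) H₁ i s T ↔
      IsGenMap g c G θ H₁ i s T := by
  unfold MP_021685_agO4.IsGenMap IsGenMap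
  simp only [tateMap_iff hG]

end

variable {k₀ k ι J : Type*} {N : J → Type*} {N' : Type*} [Field k₀] [Field k] [CharZero k]
  [IsAlgClosed k] [Algebra k₀ k] [Fintype ι] [DecidableEq ι] [Fintype J]
  [∀ j, AddCommGroup (N j)] [∀ j, Module k (N j)] [∀ j, FiniteDimensional k (N j)]
  [AddCommGroup N'] [Module k N']
  {g : Submodule k (End k (ι → k))} {c : End k (ι → k) → k}
  {G : End k (ι → k) → (∀ j, End k (N j)) → Prop}

theorem main10 (hg : IsGaloisAlg g c) {H₀ H₁ : Submodule k (ι → k)} (hc : IsCompl H₀ H₁)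
    (h₀ : IsStable g H₀) (h₁ : IsStable g H₁)
    (hHom : ∀ φ : End k (ι → k), (∀ X ∈ g, φ * X = X * φ) → ∀ u ∈ H₁, φ u ∈ H₁)
    (hodd : H₁ ≤ sSup {V | OddDisc k₀ g c V ∨ OddSimple3 g c V ∨ OddPlace g c V})
    (hG : IsLieOver g G) (hN : ∀ U ≤ H₁, IsSimpleSub g U → ∀ j, IsSmall g c G j U)
    (θ : (∀ j, End k (N j)) → End k N') (hθ : IsLinearMap k θ) (i s : ℕ)
    (T : MultilinearMap k (fun _ : Fin s => ι → k) N')
    (hT : IsTateMap G c θ i s T) : IsGenMap g c G θ H₁ i s T := by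
  have h1 := main9 (k₀ := k₀) (G := hG.sub) hg hc h₀ h₁ hHom hodd
    (fun P hP Q hQ => hG.lie P.1 P.2 Q.1 Q.2 hP hQ) (fun X => hG.fst X)
    (fun j U hU hUs => (hN U hU hUs j).at hG) (hθ.mk' θ) i s T
    ((tateMap_iff hG (hθ.mk' θ) i s T).2 hT)
  exact (genMap_iff hG (hθ.mk' θ) H₁ i s T).1 h1

end Pool.Agent.Lib.MP_021685_agO5
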