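import Pool.Agent.Lib.MP_021685_agO5.E3
import Pool.Agent.Lib.MP_021685_agO5.E4
import Pool.Agent.Lib.MP_021685_agO5.E5

/-!
# S1: a representation of the symplectic Lie algebra on a subquotient of `N`
-/

set_option autoImplicit false
set_option linter.unusedSectionVars false

namespace Pool.Agent.Lib.MP_021685_agO5

open Module Function Pool.Agent.Lib.MP_021685_agO Pool.Agent.Lib.MP_021685_agO4

variable {k H N : Type*} [Field k] [CharZero k] [IsAlgClosed k] [AddCommGroup H] [Module k H]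
  [FiniteDimensional k H] [AddCommGroup N] [Module k N] [FiniteDimensional k N]
  {g : Submodule k (End k H)} {c : End k H → k} {H₀ H₁ : Submodule k H}

private theorem S1_br (D : Dec g c H₀ H₁) {φ : D.Φ} {h : End k H} (hh : h ∈ g)
    {X Y : End k H} (hX : X ∈ sFF D φ ⊔ Submodule.span k {h})
    (hY : Y ∈ sFF D φ ⊔ Submodule.span k {h}) : X * Y - Y * X ∈ sFF D φ := by
  obtain ⟨A, hA, Z, hZ, rfl⟩ := Submodule.mem_sup.1 hX
  obtain ⟨A', hA', Z', hZ', rfl⟩ := Submodule.mem_sup.1 hY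
  obtain ⟨a, rfl⟩ := Submodule.mem_span_singleton.1 hZ
  obtain ⟨a', rfl⟩ := Submodule.mem_span_singleton.1 hZ'
  have h1 : A * A' - A' * A ∈ sFF D φ := sFF_bracket D (sFF_le D φ hA) hA'
  have h2 : h * A - A * h ∈ sFF D φ := sFF_bracket D hh hA
  have h3 : h * A' - A' * h ∈ sFF D φ := sFF_bracket D hh hA'
  have h4 : (A + a • h) * (A' + a' • h) - (A' + a' • h) * (A + a • h) =
      (A * A' - A' * A) + (a • (h * A' - A' * h) - a' • (h * A - A * h)) := by
    simp only [add_mul, mul_add, smul_mul_assoc, mul_smul_comm, smul_sub, smul_add]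
    rw [smul_comm a' a (h * h)]
    abel
  rw [h4]
  exact Submodule.add_mem _ h1 (Submodule.sub_mem _ (Submodule.smul_mem _ _ h3)
    (Submodule.smul_mem _ _ h2))

/-- PROOF. Let `L` be the submodule of the `P ∈ G` with `P.1 ∈ sFF D φ ⊔ k h` (`h = P₀.1`); it is closed under
brackets (`hG`, `sFF_bracket`: `[A + a h, A' + a' h] ∈ sFF D φ` for `A, A' ∈ sFF D φ`), contains `P₀`, and contains
an element over every `FF D φ x y` (`hGs`). `exists_flag` (its `hno` is `hno`, as `L ≤ G`) gives `B`, `B'`, and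
`exists_quot` the map `q` to `End k S`, `S = B' / B`, which is not zero (`B < B'`). `S` is irreducible: for a
stable `C` in `S` the inverse image of `C` in `B'`, mapped to `N`, is stable and between `B` and `B'`. Let `K` be
the submodule of the `P : L` with `P.1 = 0` (an ideal), and `ρ` the map of `reductive_split`. For `X ∈ sFF D φ`
and `P ∈ L` with `P.1 = X` (exists: `X` is a combination of `FF D φ x y`) `ρ P` depends only on `X`; call it
`r X`; it is linear in `X`, and for `P ∈ L`, `X ∈ sFF D φ`: `ρ P * r X - r X * ρ P = r (P.1 * X - X * P.1)`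
(`sFF_bracket`). Put `R x y = r (FF D φ x y)` for `x, y : D.W φ` (bilinear: `LinearMap.mk₂`; symmetric by
`FF_symm`), and `Y = q P₀`; `Y (mk b) = mk (P₀.2 b)`.
* `bracket`: `R x y * R z w - R z w * R x y = r (FF x y * FF z w - FF z w * FF x y)`, by `FF_bracket`, `FF_c`,
  `FF_on`, equal to `R (β z x • y + β z y • x) w + R z (β w x • y + β w y • x)`.
* `hodge`: `Y - ρ P₀` commutes with `R z w` (`reductive_split`), so
  `Y * R z w - R z w * Y = ρ P₀ * r _ - r _ * ρ P₀ = r (h * FF z w - FF z w * h)`, by `FF_bracket` and `c h = 1`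
  equal to `R (h z) w + R z (h w) - R z w`.
* `R ≠ 0`: for a pair `e`, `f` of `exists_pair` let `P ∈ L`, `P.1 = FF D φ e e`. If `R e e = ρ P = 0`, then
  `q (P - Q)` is a scalar for some `Q ∈ K`, so `P - Q` acts by a scalar on `B' / B`, and `exists_flag` gives
  `(P - Q).1 = FF D φ e e = 0`, a contradiction to `FF_self_ne`. -/
theorem exists_spRep (hlie : ∀ X ∈ g, ∀ Y ∈ g, X * Y - Y * X ∈ g) (D : Dec g c H₀ H₁) {φ : D.Φ}
    {G : Submodule k (End k H × End k N)} (hG : ∀ P ∈ G, ∀ Q ∈ G, P * Q - Q * P ∈ G)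
    (hGs : ∀ x ∈ D.W φ, ∀ y ∈ D.W φ, ∃ P ∈ G, P.1 = FF D φ x y)
    {P₀ : End k H × End k N} (hP₀ : P₀ ∈ G) (hh : IsHodgeElt g c P₀.1)
    (hno : ∀ X ∈ sFF D φ, (X, (0 : End k N)) ∈ G → X = 0)
    {β' : D.W φ →ₗ[k] D.W φ →ₗ[k] k} (hβ' : ∀ u v : D.W φ, β' u v = D.β φ u v)
    {h' : End k (D.W φ)} (hh' : ∀ u : D.W φ, (h' u : H) = P₀.1 u) :
    ∃ (B B' : Submodule k N) (_ : ∀ b ∈ B, P₀.2 b ∈ B) (hB' : ∀ b ∈ B', P₀.2 b ∈ B')
      (R : D.W φ →ₗ[k] D.W φ →ₗ[k] End k (↥B' ⧸ B.submoduleOf B'))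
      (Y : End k (↥B' ⧸ B.submoduleOf B')), SpRep β' h' R Y ∧ (∃ x y, R x y ≠ 0) ∧
      ∀ b : B', Y (Submodule.Quotient.mk b) = Submodule.Quotient.mk ⟨P₀.2 b, hB' b b.2⟩ := by
  classical
  have hhg : P₀.1 ∈ g := hh.1
  -- the Lie algebra `L`
  let L : Submodule k (End k H × End k N) :=
    G ⊓ (sFF D φ ⊔ Submodule.span k {P₀.1}).comap (LinearMap.fst k (End k H) (End k N))
  have memL : ∀ P : End k H × End k N,
      P ∈ L ↔ P ∈ G ∧ P.1 ∈ sFF D φ ⊔ Submodule.span k {P₀.1} := fun P => Iff.rfl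
  have hL : ∀ P ∈ L, ∀ Q ∈ L, P * Q - Q * P ∈ L := by
    intro P hP Q hQ
    rw [memL] at hP hQ ⊢
    refine ⟨hG P hP.1 Q hQ.1, ?_⟩
    show P.1 * Q.1 - Q.1 * P.1 ∈ _
    exact Submodule.mem_sup_left (S1_br D hhg hP.2 hQ.2)
  have hLs : ∀ x ∈ D.W φ, ∀ y ∈ D.W φ, ∃ P ∈ L, P.1 = FF D φ x y := by
    intro x hx y hy
    obtain ⟨P, hP, e⟩ := hGs x hx y hy
    refine ⟨P, (memL P).2 ⟨hP, ?_⟩, e⟩
    rw [e]
    exact Submodule.mem_sup_left (FF_mem_sFF D hx hy)
  have hP₀L : P₀ ∈ L := (memL P₀).2 ⟨hP₀, Submodule.mem_sup_right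
    (Submodule.mem_span_singleton_self _)⟩
  obtain ⟨B, B', hlt, hsB, hsB', hmin, hsc⟩ := exists_flag D hL hLs
    (fun X hX hXL => hno X hX ((memL _).1 hXL).1)
  obtain ⟨q, hq1, hq2⟩ := exists_quot L hL hsB hsB'
  -- the quotient is not zero
  obtain ⟨b₀, hb₀, hb₀'⟩ := SetLike.exists_of_lt hlt
  have hmk : ∀ b : B', (Submodule.Quotient.mk b : ↥B' ⧸ B.submoduleOf B') = 0 ↔ (b : N) ∈ B := by
    intro b
    rw [Submodule.Quotient.mk_eq_zero]
    exact Submodule.mem_comap
  have hnt : Nontrivial (↥B' ⧸ B.submoduleOf B') := by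
    refine ⟨⟨Submodule.Quotient.mk ⟨b₀, hb₀⟩, 0, fun h0 => hb₀' ?_⟩⟩
    exact (hmk ⟨b₀, hb₀⟩).1 h0
  -- the quotient is irreducible
  have hirr : ∀ C : Submodule k (↥B' ⧸ B.submoduleOf B'),
      (∀ P : L, ∀ u ∈ C, q P u ∈ C) → C = ⊥ ∨ C = ⊤ := by
    intro C hC
    have hmem : ∀ b : N, b ∈ (C.comap (B.submoduleOf B').mkQ).map B'.subtype ↔
        ∃ hb : b ∈ B', (Submodule.Quotient.mk ⟨b, hb⟩ : ↥B' ⧸ B.submoduleOf B') ∈ C := by
      intro b
      constructor
      · rintro ⟨b', hb', rfl⟩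
        exact ⟨b'.2, hb'⟩
      · rintro ⟨hb, h1⟩
        exact ⟨⟨b, hb⟩, h1, rfl⟩
    have k1 : B ≤ (C.comap (B.submoduleOf B').mkQ).map B'.subtype := by
      intro b hb
      refine (hmem b).2 ⟨hlt.le hb, ?_⟩
      rw [(hmk ⟨b, hlt.le hb⟩).2 hb]
      exact C.zero_mem
    have k2 : (C.comap (B.submoduleOf B').mkQ).map B'.subtype ≤ B' := by
      intro b hb
      exact ((hmem b).1 hb).1
    have k3 : StabN L ((C.comap (B.submoduleOf B').mkQ).map B'.subtype) := by
      intro P hP b hb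
      obtain ⟨hb1, hb2⟩ := (hmem b).1 hb
      refine (hmem _).2 ⟨hsB' P hP b hb1, ?_⟩
      have h2 := hC ⟨P, hP⟩ _ hb2
      rw [hq1] at h2
      exact h2
    rcases hmin _ k1 k2 k3 with h1 | h1
    · left
      rw [eq_bot_iff]
      intro u hu
      obtain ⟨b, rfl⟩ := Submodule.Quotient.mk_surjective _ u
      have h2 : (b : N) ∈ (C.comap (B.submoduleOf B').mkQ).map B'.subtype :=
        (hmem b).2 ⟨b.2, hu⟩
      rw [h1] at h2
      rw [Submodule.mem_bot]
      exact (hmk b).2 h2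
    · right
      rw [eq_top_iff]
      intro u _
      obtain ⟨b, rfl⟩ := Submodule.Quotient.mk_surjective _ u
      have h2 : (b : N) ∈ (C.comap (B.submoduleOf B').mkQ).map B'.subtype := by
        rw [h1]
        exact b.2
      obtain ⟨_, h3⟩ := (hmem b).1 h2
      exact h3
  -- the ideal `K`
  let K : Submodule k L :=
    LinearMap.ker ((LinearMap.fst k (End k H) (End k N)).comp L.subtype)
  have memK : ∀ P : L, P ∈ K ↔ (P : End k H × End k N).1 = 0 := fun P => Iff.rfl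
  obtain ⟨ρ, hρK, hρbr, hρcomm, hρ0⟩ := reductive_split L hL q hq2 hirr K (by
    intro P Q hQ
    rw [memK] at hQ ⊢
    show (P : End k H × End k N).1 * (Q : End k H × End k N).1 -
      (Q : End k H × End k N).1 * (P : End k H × End k N).1 = 0
    rw [hQ, mul_zero, zero_mul, sub_zero])
  have hwd : ∀ P Q : L, (P : End k H × End k N).1 = (Q : End k H × End k N).1 → ρ P = ρ Q := by
    intro P Q hPQ
    have h1 : P - Q ∈ K := by
      rw [memK]
      show (P : End k H × End k N).1 - (Q : End k H × End k N).1 = 0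
      rw [hPQ, sub_self]
    have h2 := hρK _ h1
    rw [map_sub] at h2
    exact sub_eq_zero.1 h2
  -- the lifts
  have hex : ∀ x y : D.W φ, ∃ P : L, (P : End k H × End k N).1 = FF D φ x y := by
    intro x y
    obtain ⟨P, hP, e⟩ := hLs x x.2 y y.2
    exact ⟨⟨P, hP⟩, e⟩
  choose M hM using hex
  let R : D.W φ →ₗ[k] D.W φ →ₗ[k] End k (↥B' ⧸ B.submoduleOf B') :=
    LinearMap.mk₂ k (fun x y => ρ (M x y))
      (by
        intro x x' y
        rw [← map_add]
        refine hwd _ _ ?_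
        show (M (x + x') y : End k H × End k N).1 =
          (M x y : End k H × End k N).1 + (M x' y : End k H × End k N).1
        rw [hM, hM, hM, Submodule.coe_add, map_add, LinearMap.add_apply])
      (by
        intro a x y
        rw [← map_smul]
        refine hwd _ _ ?_
        show (M (a • x) y : End k H × End k N).1 = a • (M x y : End k H × End k N).1
        rw [hM, hM, Submodule.coe_smul, map_smul, LinearMap.smul_apply])
      (by
        intro x y y'
        rw [← map_add]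
        refine hwd _ _ ?_
        show (M x (y + y') : End k H × End k N).1 =
          (M x y : End k H × End k N).1 + (M x y' : End k H × End k N).1
        rw [hM, hM, hM, Submodule.coe_add, map_add])
      (by
        intro a x y
        rw [← map_smul]
        refine hwd _ _ ?_
        show (M x (a • y) : End k H × End k N).1 = a • (M x y : End k H × End k N).1
        rw [hM, hM, Submodule.coe_smul, map_smul])
  have hR : ∀ x y, R x y = ρ (M x y) := fun x y => rfl
  refine ⟨B, B', fun b hb => hsB P₀ hP₀L b hb, fun b hb => hsB' P₀ hP₀L b hb, R, q ⟨P₀, hP₀L⟩,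
    ⟨?_, ?_, ?_⟩, ?_, fun b => hq1 ⟨P₀, hP₀L⟩ b⟩
  · intro x y
    rw [hR, hR]
    refine hwd _ _ ?_
    rw [hM, hM, FF_symm]
  · intro x y z w
    rw [hR x y, hR z w, ← hρbr, hR, hR, ← map_add]
    refine hwd _ _ ?_
    show (M x y : End k H × End k N).1 * (M z w : End k H × End k N).1 -
        (M z w : End k H × End k N).1 * (M x y : End k H × End k N).1 =
      (M (β' z x • y + β' z y • x) w : End k H × End k N).1 +
        (M z (β' w x • y + β' w y • x) : End k H × End k N).1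
    rw [hM, hM, hM, hM, FF_bracket D z.2 w.2 (FF_mem D x.2 y.2), FF_c D x.2 y.2, zero_smul,
      sub_zero, FF_on D x.2 y.2 z.2, FF_on D x.2 y.2 w.2]
    simp only [Submodule.coe_add, Submodule.coe_smul, hβ']
  · intro z w
    have h1 := hρcomm ⟨P₀, hP₀L⟩ (M z w)
    have h2 : q ⟨P₀, hP₀L⟩ * ρ (M z w) - ρ (M z w) * q ⟨P₀, hP₀L⟩ =
        ρ ⟨P₀, hP₀L⟩ * ρ (M z w) - ρ (M z w) * ρ ⟨P₀, hP₀L⟩ := by
      rw [sub_mul, mul_sub] at h1
      rw [sub_eq_sub_iff_add_eq_add] at h1 ⊢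
      rw [h1]
      abel
    rw [hR, h2, ← hρbr, hR, hR, ← map_add, ← map_sub]
    refine hwd _ _ ?_
    show P₀.1 * (M z w : End k H × End k N).1 - (M z w : End k H × End k N).1 * P₀.1 =
      (M (h' z) w : End k H × End k N).1 + (M z (h' w) : End k H × End k N).1 -
        (M z w : End k H × End k N).1
    rw [hM, hM, hM, FF_bracket D z.2 w.2 hhg, hh.2.2, one_smul, hh', hh']
  · obtain ⟨e, he, f, hf, -, hfe, -, -⟩ := exists_pair D φ
    by_contra hcon
    have h0 : ρ (M ⟨e, he⟩ ⟨e, he⟩) = 0 := by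
      by_contra hne
      exact hcon ⟨⟨e, he⟩, ⟨e, he⟩, hne⟩
    obtain ⟨Q, hQ, a, ha⟩ := hρ0 _ h0
    rw [memK] at hQ
    have h1 : ((M ⟨e, he⟩ ⟨e, he⟩ - Q : L) : End k H × End k N).1 = FF D φ e e := by
      show (M ⟨e, he⟩ ⟨e, he⟩ : End k H × End k N).1 - (Q : End k H × End k N).1 = FF D φ e e
      rw [hM, hQ, sub_zero]
    refine FF_self_ne D he hf hfe ?_
    rw [← h1]
    refine hsc _ (M ⟨e, he⟩ ⟨e, he⟩ - Q).2 ?_ ⟨a, fun b hb => ?_⟩
    · rw [h1]
      exact FF_mem_sFF D he he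
    · have h2 := LinearMap.congr_fun ha (Submodule.Quotient.mk ⟨b, hb⟩)
      rw [hq1, LinearMap.smul_apply, Module.End.one_apply, ← Submodule.Quotient.mk_smul,
        Submodule.Quotient.eq] at h2
      exact Submodule.mem_comap.1 h2

end Pool.Agent.Lib.MP_021685_agO5
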