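import Pool.Agent.Lib.MP_021685_agO5.G0

/-!
# S3: splitting, several blocks
-/

set_option autoImplicit false
set_option linter.unusedSectionVars false

namespace Pool.Agent.Lib.MP_021685_agO5

open Module Function Pool.Agent.Lib.MP_021685_agO Pool.Agent.Lib.MP_021685_agO4

variable {k H J : Type*} {N : J → Type*} [Field k] [CharZero k] [AddCommGroup H] [Module k H]
  [FiniteDimensional k H] [∀ j, AddCommGroup (N j)] [∀ j, Module k (N j)]
  {g : Submodule k (End k H)} {c : End k H → k} {H₀ H₁ : Submodule k H}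

private def S3_I {k H J : Type*} {N : J → Type*} [Field k] [AddCommGroup H] [Module k H]
    [∀ j, AddCommGroup (N j)] [∀ j, Module k (N j)]
    (G : Submodule k (End k H × (∀ j, End k (N j)))) (s : Finset J) : Submodule k (End k H) where
  carrier := {X | ∃ P ∈ G, P.1 = X ∧ ∀ j ∈ s, P.2 j = 0}
  zero_mem' := ⟨0, G.zero_mem, rfl, fun _ _ => rfl⟩
  add_mem' := by
    rintro X Y ⟨P, hP, hX, h1⟩ ⟨Q, hQ, hY, h2⟩
    refine ⟨P + Q, G.add_mem hP hQ, by rw [Prod.fst_add, hX, hY], fun j hj => ?_⟩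
    rw [Prod.snd_add, Pi.add_apply, h1 j hj, h2 j hj, add_zero]
  smul_mem' := by
    rintro a X ⟨P, hP, hX, h1⟩
    refine ⟨a • P, G.smul_mem a hP, by rw [Prod.smul_fst, hX], fun j hj => ?_⟩
    rw [Prod.smul_snd, Pi.smul_apply, h1 j hj, smul_zero]

/-- PROOF. For a finite set `s` of indices let `I s` be the submodule of the `X` for which there is `P ∈ G` with
`P.1 = X` and `P.2 j = 0` for all `j ∈ s`. Claim: `I s` contains all the `FF D φ x y`. Induction on `s`; `s = ∅`:
`hGs`. Let the claim hold for `s`, and consider `insert j s`. `I (insert j s)` is stable under the brackets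
with the `FF D φ x y` (lift `FF D φ x y` by `hGs`; the bracket of an endomorphism which is zero and any other is
zero), so by `ideal_FF` it is enough to find in it an element of `sFF D φ` which is not zero. Let `e`, `f` be from
`exists_pair`. Lift `A = FF D φ e f` to `P ∈ G` with `P.2 = 0` on `s` and `C = FF D φ e e` to `Q ∈ G` with
`Q.2 j = 0` (`hj`). Then `P * Q - Q * P ∈ G` is zero on `insert j s`, and its first component is
`A * C - C * A = 2 • FF D φ e e` (`FF_bracket`, `FF_c`, and `FF D φ e f e = e` by `FF_on`), not zero by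
`FF_self_ne` (and characteristic zero), in `sFF D φ`. For `s = Finset.univ` the element `P` is `(FF D φ x y, 0)`. -/
theorem split_all [Fintype J] (D : Dec g c H₀ H₁) {φ : D.Φ}
    {G : Submodule k (End k H × (∀ j, End k (N j)))} (hG : ∀ P ∈ G, ∀ Q ∈ G, P * Q - Q * P ∈ G)
    (hGs : ∀ x ∈ D.W φ, ∀ y ∈ D.W φ, ∃ P ∈ G, P.1 = FF D φ x y)
    (hj : ∀ j, ∀ x ∈ D.W φ, ∀ y ∈ D.W φ, ∃ P ∈ G, P.1 = FF D φ x y ∧ P.2 j = 0) :
    ∀ x ∈ D.W φ, ∀ y ∈ D.W φ, (FF D φ x y, (0 : ∀ j, End k (N j))) ∈ G := by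
  classical
  have hlie : ∀ (P Q : End k H × (∀ j, End k (N j))),
      (P * Q - Q * P).1 = P.1 * Q.1 - Q.1 * P.1 ∧
      ∀ j, (P * Q - Q * P).2 j = P.2 j * Q.2 j - Q.2 j * P.2 j := fun P Q => ⟨rfl, fun _ => rfl⟩
  have key : ∀ s : Finset J, ∀ x ∈ D.W φ, ∀ y ∈ D.W φ, FF D φ x y ∈ S3_I G s := by
    intro s
    induction s using Finset.induction_on with
    | empty =>
      intro x hx y hy
      obtain ⟨P, hP, h1⟩ := hGs x hx y hy
      exact ⟨P, hP, h1, fun j hj' => absurd hj' (Finset.notMem_empty j)⟩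
    | insert j s hjs ih =>
      obtain ⟨e, he, f, hf, hef, hfe, hee, hff⟩ := exists_pair D φ
      have hA : ∃ P ∈ G, P.1 = FF D φ e f ∧ ∀ j ∈ s, P.2 j = 0 := ih e he f hf
      obtain ⟨P, hP, hP1, hP2⟩ := hA
      obtain ⟨Q, hQ, hQ1, hQ2⟩ := hj j e he e he
      have hbr : FF D φ e f * FF D φ e e - FF D φ e e * FF D φ e f = (2 : k) • FF D φ e e := by
        have hAe : FF D φ e f e = e := by
          rw [FF_on D he hf he, hee, hef, zero_smul, one_smul, zero_add]
        rw [FF_bracket D he he (FF_mem D he hf), FF_c D he hf, zero_smul, sub_zero, hAe, two_smul]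
      have hmem : (2 : k) • FF D φ e e ∈ S3_I G (insert j s) := by
        refine ⟨P * Q - Q * P, hG P hP Q hQ, ?_, fun i hi => ?_⟩
        · rw [(hlie P Q).1, hP1, hQ1, hbr]
        · rw [(hlie P Q).2]
          rcases Finset.mem_insert.1 hi with h | h
          · rw [h, hQ2, mul_zero, zero_mul, sub_zero]
          · rw [hP2 i h, mul_zero, zero_mul, sub_zero]
      refine ideal_FF D (S3_I G (insert j s)) ?_ hmem
        (Submodule.smul_mem _ _ (FF_mem_sFF D he he)) ?_
      · rintro A ⟨R, hR, hR1, hR2⟩ _ x hx y hy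
        obtain ⟨T, hT, hT1⟩ := hGs x hx y hy
        refine ⟨R * T - T * R, hG R hR T hT, ?_, fun i hi => ?_⟩
        · rw [(hlie R T).1, hR1, hT1]
        · rw [(hlie R T).2, hR2 i hi, mul_zero, zero_mul, sub_zero]
      · exact smul_ne_zero two_ne_zero (FF_self_ne D he hf hfe)
  intro x hx y hy
  obtain ⟨P, hP, h1, h2⟩ := key Finset.univ x hx y hy
  have e : P = (FF D φ x y, (0 : ∀ j, End k (N j))) :=
    Prod.ext h1 (funext fun j => h2 j (Finset.mem_univ j))
  rw [← e]
  exact hP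

end Pool.Agent.Lib.MP_021685_agO5
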