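import Pool.Agent.Lib.MP_021685_agO5.G1

/-!
# W1: symplectic bases adapted to an idempotent
-/

set_option autoImplicit false
set_option linter.unusedSectionVars false

namespace Pool.Agent.Lib.MP_021685_agO5

open Module Function

variable {k V : Type*} [Field k] [CharZero k] [AddCommGroup V] [Module k V] [FiniteDimensional k V]

/-- PROOF. The same as `exists_sb` (`MP_021685_agO4/B3.lean`) with `W = ⊤`: `V₁ = LinearMap.ker (h - 1)`,
`V₀ = LinearMap.ker h`; `V = V₁ ⊕ V₀`; `β = 0` on `V₁ × V₁` and on `V₀ × V₀` (`hβ`); take a basis `e` of `V₁` and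
the dual basis `f` of `V₀`. -/
theorem exists_sbV {β : V →ₗ[k] V →ₗ[k] k} (alt : ∀ u, β u u = 0)
    (nondeg : ∀ u, (∀ v, β u v = 0) → u = 0) {h : End k V} (hh : h * h = h)
    (hβ : ∀ u v, β (h u) v + β u (h v) = β u v) :
    ∃ (d : ℕ) (e f : Fin d → V), SBV β h d e f ∧ finrank k V = 2 * d := by
  classical
  have hid : ∀ u, h (h u) = h u := fun u => LinearMap.congr_fun hh u
  have hneg : ∀ u v, β u v = - β v u := by
    intro u v
    have h1 := alt (u + v)
    rw [map_add, map_add, LinearMap.add_apply, LinearMap.add_apply, alt u, alt v, zero_add,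
      add_zero] at h1
    exact eq_neg_of_add_eq_zero_right h1
  let V₁ : Submodule k V := LinearMap.ker (h - 1)
  let V₀ : Submodule k V := LinearMap.ker h
  have m1 : ∀ u, u ∈ V₁ ↔ h u = u := by
    intro u
    show u ∈ LinearMap.ker (h - 1) ↔ _
    rw [LinearMap.mem_ker, LinearMap.sub_apply, Module.End.one_apply, sub_eq_zero]
  have m0 : ∀ u, u ∈ V₀ ↔ h u = 0 := by
    intro u
    show u ∈ LinearMap.ker h ↔ _
    rw [LinearMap.mem_ker]
  have s1 : ∀ u, h u ∈ V₁ := fun u => (m1 _).2 (hid u)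
  have s0 : ∀ u, u - h u ∈ V₀ := fun u => (m0 _).2 (by rw [map_sub, hid, sub_self])
  have b11 : ∀ u ∈ V₁, ∀ v ∈ V₁, β u v = 0 := by
    intro u hu v hv
    have hu2 := (m1 u).1 hu
    have hv2 := (m1 v).1 hv
    have h1 := hβ u v
    rw [hu2, hv2] at h1
    linear_combination h1
  have b00 : ∀ u ∈ V₀, ∀ v ∈ V₀, β u v = 0 := by
    intro u hu v hv
    have hu2 := (m0 u).1 hu
    have hv2 := (m0 v).1 hv
    have h1 := hβ u v
    rw [hu2, hv2, map_zero, map_zero, LinearMap.zero_apply, add_zero] at h1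
    exact h1.symm
  -- the two pairings
  let A : V₀ →ₗ[k] Dual k V₁ :=
    (Module.Dual.transpose (R := k) V₁.subtype) ∘ₗ β.flip ∘ₗ V₀.subtype
  have hA : ∀ (v : V₀) (u : V₁), A v u = β u v := fun _ _ => rfl
  let B : V₁ →ₗ[k] Dual k V₀ :=
    (Module.Dual.transpose (R := k) V₀.subtype) ∘ₗ β ∘ₗ V₁.subtype
  have hB : ∀ (u : V₁) (v : V₀), B u v = β u v := fun _ _ => rfl
  have hAi : Function.Injective A := by
    rw [← LinearMap.ker_eq_bot, LinearMap.ker_eq_bot']
    rintro ⟨v, hv⟩ h0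
    refine Subtype.ext (nondeg v fun w => ?_)
    have h1 : β (h w) v = 0 := LinearMap.congr_fun h0 ⟨h w, s1 w⟩
    have h2 : β (w - h w) v = 0 := b00 _ (s0 w) v hv
    rw [map_sub, LinearMap.sub_apply, h1, sub_zero] at h2
    rw [hneg v w, h2, neg_zero]
  have hBi : Function.Injective B := by
    rw [← LinearMap.ker_eq_bot, LinearMap.ker_eq_bot']
    rintro ⟨u, hu⟩ h0
    refine Subtype.ext (nondeg u fun w => ?_)
    have h1 : β u (w - h w) = 0 := LinearMap.congr_fun h0 ⟨w - h w, s0 w⟩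
    have h2 : β u (h w) = 0 := b11 u hu _ (s1 w)
    rw [map_sub, h2, sub_zero] at h1
    exact h1
  have hle1 : finrank k V₀ ≤ finrank k V₁ := by
    rw [← Subspace.dual_finrank_eq (K := k) (V := V₁)]
    exact LinearMap.finrank_le_finrank_of_injective hAi
  have hle2 : finrank k V₁ ≤ finrank k V₀ := by
    rw [← Subspace.dual_finrank_eq (K := k) (V := V₀)]
    exact LinearMap.finrank_le_finrank_of_injective hBi
  have hdim : finrank k V₀ = finrank k (Dual k V₁) := by
    rw [Subspace.dual_finrank_eq]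
    exact le_antisymm hle1 hle2
  let Ae : V₀ ≃ₗ[k] Dual k V₁ := LinearMap.linearEquivOfInjective A hAi hdim
  have hAe : ∀ (ξ : Dual k V₁) (u : V₁), β u (Ae.symm ξ : V₀) = ξ u := by
    intro ξ u
    rw [← hA]
    have h1 : A (Ae.symm ξ) = ξ := Ae.apply_symm_apply ξ
    rw [h1]
  let eb := Module.finBasis k V₁
  let fb : Basis (Fin (finrank k V₁)) k V₀ := eb.dualBasis.map Ae.symm
  have hef : ∀ j l, β (eb j : V) (fb l : V) = if j = l then 1 else 0 := by
    intro j l
    have h1 : fb l = Ae.symm (eb.dualBasis l) := Basis.map_apply _ _ _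
    rw [h1, hAe, Basis.dualBasis_apply_self]
  refine ⟨finrank k V₁, fun j => (eb j : V), fun j => (fb j : V),
    { he := fun j => (m1 _).1 (eb j).2
      hf := fun j => (m0 _).1 (fb j).2
      ef := hef
      fe := fun j l => ?_
      ee := fun j l => b11 _ (eb j).2 _ (eb l).2
      ff := fun j l => b00 _ (fb j).2 _ (fb l).2 }, ?_⟩
  · rw [hneg, hef]
    by_cases hjl : j = l
    · rw [if_pos hjl, if_pos hjl.symm]
    · rw [if_neg hjl, if_neg (fun h' => hjl h'.symm), neg_zero]
  · have hW : (⊤ : Submodule k V) = V₁ ⊔ V₀ := by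
      refine le_antisymm (fun u _ => ?_) le_top
      have h1 : u = h u + (u - h u) := by abel
      rw [h1]
      exact Submodule.add_mem_sup (s1 u) (s0 u)
    have hinf : V₁ ⊓ V₀ = ⊥ := by
      rw [eq_bot_iff]
      rintro u ⟨hu1, hu0⟩
      rw [Submodule.mem_bot, ← (m1 u).1 hu1]
      exact (m0 u).1 hu0
    have h1 := Submodule.finrank_sup_add_finrank_inf_eq V₁ V₀
    rw [← hW, hinf, finrank_bot, finrank_top] at h1
    omega

end Pool.Agent.Lib.MP_021685_agO5
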